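import Mathlib

namespace Pool.Agent.H.MP_ec05f5_lc

open Set Function Filter Topology TopologicalSpace

/-- a group acting on the right with a filtration -/
structure Sys (Z Γ : Type) [TopologicalSpace Z] [Group Γ] where
  ac : Z → Γ → Z
  ag : ℕ → Z → Z → Prop
  far : ℕ → Subgroup Γ
  one : ∀ z, ac z 1 = z
  mul : ∀ z g h, ac z (g * h) = ac (ac z g) h
  cont : ∀ g, Continuous (ac · g)
  anti : ∀ {M M' u v}, M ≤ M' → ag M' u v → ag M u v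
  symm : ∀ {M u v}, ag M u v → ag M v u
  trans : ∀ {M u v w}, ag M u v → ag M v w → ag M u w
  fanti : Antitone far
  far_ag : ∀ {M g} z, g ∈ far M → ag M (ac z g) z
  cyl : ∀ z, ∀ U ∈ 𝓝 z, ∃ M, ∀ᶠ u in 𝓝 z, ∀ u', ag M u' u → u' ∈ U
  lim : ∀ (u : ℕ → Z), (∀ n, ag n (u (n + 1)) (u n)) → ∃ u', ∀ n, ag n u' (u n)

variable {Z Γ : Type} [TopologicalSpace Z] [Group Γ] (S : Sys Z Γ)

theorem Sys.opn (g : Γ) : IsOpenMap (S.ac · g) :=
  IsOpenMap.of_inverse (S.cont g⁻¹) (fun z => by simp [← S.mul, S.one])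
    fun z => by simp [← S.mul, S.one]

theorem Sys.refl (M : ℕ) (z : Z) : S.ag M z z := by
  simpa [S.one] using S.far_ag z (S.far M).one_mem

theorem Sys.generic [Countable Γ] [MeasurableSpace Z] [BorelSpace Z] {F : Z → ℕ → ℝ}
    (hF : Measurable F) : ∃ G ∈ residual Z, ContinuousOn F G ∧ ∀ z ∈ G, ∀ g, S.ac z g ∈ G := by
  choose! u u1 u2 using fun s (hs : s ∈ countableBasis (ℕ → ℝ)) =>
    (hF (isOpen_of_mem_countableBasis hs).measurableSet).residualEq_isOpen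
  have h : ∀ᶠ z in residual Z, ∀ s ∈ countableBasis (ℕ → ℝ), F z ∈ s ↔ z ∈ u s :=
    (eventually_countable_ball (countable_countableBasis _)).2 fun s hs =>
      (u2 s hs).mono fun z hz => iff_of_eq hz
  refine ⟨{z | ∀ g, ∀ s ∈ countableBasis (ℕ → ℝ), F (S.ac z g) ∈ s ↔ S.ac z g ∈ u s},
    eventually_countable_forall.2 fun g =>
      tendsto_residual_of_isOpenMap (S.cont g) (S.opn g) h, fun z hz => ?_,
    fun z hz g h => by simpa only [← S.mul] using hz (g * h)⟩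
  refine ((isBasis_countableBasis _).nhds_hasBasis.tendsto_right_iff).2 fun s hs => ?_
  have e := fun z (hz : ∀ g, ∀ s ∈ countableBasis (ℕ → ℝ), F (S.ac z g) ∈ s ↔ S.ac z g ∈ u s) =>
    (by simpa only [S.one] using hz 1 s hs.1 : F z ∈ s ↔ z ∈ u s)
  filter_upwards [self_mem_nhdsWithin, mem_nhdsWithin_of_mem_nhds
    ((u1 s hs.1).mem_nhds ((e z hz).1 hs.2))] with y h1 h2 using (e y h1).2 h2

theorem Sys.stab {G O : Set Z} (hO : IsOpen O) {Ψ : Z × Z → ℝ} (hΨ : ContinuousOn Ψ (G ×ˢ G))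
    {z₀ : Z} (h0 : z₀ ∈ O) (h1 : z₀ ∈ G) (w : Γ) (h2 : S.ac z₀ w ∈ G)
    (h : 0 < Ψ (S.ac z₀ w, z₀)) (m : ℕ) : ∃ O' M, IsOpen O' ∧ O'.Nonempty ∧ O' ⊆ O ∧ m ≤ M ∧
      ∀ z ∈ O', z ∈ G → ∀ u ∈ G, S.ag M u (S.ac z w) → 0 < Ψ (u, z) := by
  obtain ⟨T, t1, t2⟩ := mem_nhdsWithin_iff_exists_mem_nhds_inter.1
    (hΨ _ (mk_mem_prod h2 h1) (Ioi_mem_nhds h))
  obtain ⟨U, hU, V, hV, t3⟩ := mem_nhds_prod_iff.1 t1
  obtain ⟨M, hM⟩ := S.cyl _ _ hU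
  obtain ⟨O', o1, o2, o3⟩ := mem_nhds_iff.1 (inter_mem (inter_mem (hO.mem_nhds h0) hV)
    ((S.cont w).continuousAt.eventually hM))
  exact ⟨O', max m M, o2, ⟨_, o3⟩, fun z hz => (o1 hz).1.1, le_max_left _ _,
    fun z hz hG u hu h => t2 ⟨t3 ⟨(o1 hz).2 u (S.anti (le_max_right _ _) h), (o1 hz).1.2⟩, hu, hG⟩⟩

theorem Sys.shrink {O : Set Z} (hO : IsOpen O) (hn : O.Nonempty) (m : ℕ) :
    ∃ O' M, IsOpen O' ∧ O'.Nonempty ∧ m ≤ M ∧ ∀ z ∈ O', ∀ g ∈ S.far M, S.ac z g ∈ O := by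
  obtain ⟨z, hz⟩ := hn
  obtain ⟨M, hM⟩ := S.cyl _ _ (hO.mem_nhds hz)
  obtain ⟨O', o1, o2, o3⟩ := mem_nhds_iff.1 hM
  exact ⟨O', max m M, o2, ⟨_, o3⟩, le_max_left _ _,
    fun z hz g hg => o1 hz _ (S.anti (le_max_right _ _) (S.far_ag z hg))⟩

variable [IsCompletelyMetrizableSpace Z]

theorem baire {G O : Set Z} (hG : G ∈ residual Z) (hO : IsOpen O) (hn : O.Nonempty) {ι κ : Type}
    [Countable κ] {φ : κ → ι → Z → ℝ} (h1 : ∀ K i, ContinuousOn (φ K i) G)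
    (h2 : ∀ᶠ z in residual Z, z ∈ O → ∃ K, ∀ i, φ K i z ≤ 0) :
    ∃ K O', IsOpen O' ∧ O'.Nonempty ∧ O' ⊆ O ∧ ∀ z ∈ O', z ∈ G → ∀ i, φ K i z ≤ 0 := by
  by_contra hc
  have : ∀ K, ∀ᶠ z in residual Z, z ∉ O ∩ closure {z ∈ G | ∀ i, φ K i z ≤ 0} := fun K => by
    refine mem_of_superset (residual_of_dense_open
      (isClosed_closure (s := O ∩ closure {z ∈ G | ∀ i, φ K i z ≤ 0})).isOpen_compl ?_)
      fun z hz h => hz (subset_closure h)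
    rw [← interior_eq_empty_iff_dense_compl]
    by_contra hi
    obtain ⟨y, hy⟩ := nonempty_iff_ne_empty.2 hi
    obtain ⟨x, x1, x2⟩ := mem_closure_iff.1 (interior_subset hy) _ isOpen_interior hy
    refine hc ⟨K, _, isOpen_interior.inter hO, ⟨x, x1, x2.1⟩, inter_subset_right,
      fun z hz hzG i => ?_⟩
    have := closure_mono inter_subset_right (interior_subset hz.1)
    rw [closure_closure] at this
    exact ((h1 K i z hzG).mono (sep_subset _ _)).closure_le this continuousWithinAt_const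
      fun y hy => hy.2 i
  obtain ⟨z, z1, z2, z3, z4⟩ := (dense_of_mem_residual (inter_mem hG (inter_mem h2
    (eventually_countable_forall.2 this)))).inter_open_nonempty O hO hn
  obtain ⟨K, hK⟩ := z3 z1
  exact z4 K ⟨z1, subset_closure ⟨z2, hK⟩⟩

theorem Sys.fusion {G O₀ : Set Z} (hG : G ∈ residual Z) (hO : IsOpen O₀) (hn : O₀.Nonempty)
    (m₀ : ℕ) (Φ : ℕ → Γ → ℕ → Γ → Set Z → ℕ → Prop)
    (step : ∀ n O w m, IsOpen O → O.Nonempty → O ⊆ O₀ → w ∈ S.far m₀ → m₀ ≤ m →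
      ∃ g ∈ S.far m, ∃ O' M, IsOpen O' ∧ O'.Nonempty ∧ O' ⊆ O ∧ Φ n w m g O' M) :
    ∃ (w g : ℕ → Γ) (m M : ℕ → ℕ) (O : ℕ → Set Z) (z z' : Z), w 0 = 1 ∧ Monotone m ∧ z ∈ G ∧
      z' ∈ G ∧ Tendsto (fun n => S.ac z (w n)) atTop (𝓝 z') ∧ ∀ n, w (n + 1) = w n * g n ∧
        g n ∈ S.far (m n) ∧ M n ≤ m (n + 1) ∧ Φ n (w n) (m n) (g n) (O n) (M n) ∧ z ∈ O n ∧
        S.ag (m n) z' (S.ac z (w n)) := by
  letI := upgradeIsCompletelyMetrizable Z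
  obtain ⟨T, t1, t2, t3, t4⟩ := mem_residual_iff.1 hG
  obtain ⟨D, hD⟩ := (t3.insert univ).exists_eq_range (insert_nonempty _ _)
  have d : ∀ n, IsOpen (D n) ∧ Dense (D n) := fun n => by
    rcases (hD.ge (mem_range_self n) : D n ∈ insert univ T) with h | h
    · rw [h]
      exact ⟨isOpen_univ, dense_univ⟩
    · exact ⟨t1 _ h, t2 _ h⟩
  have dG : ∀ z, (∀ n, z ∈ D n) → z ∈ G := fun z h => t4 fun t ht => by
    obtain ⟨n, rfl⟩ := hD.le (mem_insert_of_mem _ ht)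
    exact h n
  have : ∀ n (s : {s : Set Z × Γ × ℕ // IsOpen s.1 ∧ s.1.Nonempty ∧ s.1 ⊆ O₀ ∧
      s.2.1 ∈ S.far m₀ ∧ m₀ ≤ s.2.2}), ∃ (t : {s : Set Z × Γ × ℕ // IsOpen s.1 ∧ s.1.Nonempty ∧
      s.1 ⊆ O₀ ∧ s.2.1 ∈ S.far m₀ ∧ m₀ ≤ s.2.2}) (g : Γ) (O' : Set Z) (M : ℕ),
      t.1.2.1 = s.1.2.1 * g ∧ g ∈ S.far s.1.2.2 ∧ M ≤ t.1.2.2 ∧ s.1.2.2 < t.1.2.2 ∧
      Φ n s.1.2.1 s.1.2.2 g O' M ∧ O' ⊆ s.1.1 ∧ (∀ x ∈ t.1.1, ∀ y ∈ t.1.1, dist x y ≤ (1 / 2) ^ n) ∧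
      ∀ z ∈ closure t.1.1, z ∈ O' ∧ z ∈ D n ∧ ∀ u, S.ag t.1.2.2 u (S.ac z t.1.2.1) → u ∈ D n := by
    rintro n ⟨⟨O, w, m⟩, h1, h2, h3, h4, h5⟩
    obtain ⟨g, g1, O', M, o1, o2, o3, o4⟩ := step n O w m h1 h2 h3 h4 h5
    obtain ⟨c, c1, c2, c3⟩ := ((d n).2.inter_of_isOpen_left ((d n).2.preimage (S.opn (w * g)))
      (d n).1).inter_open_nonempty O' o1 o2
    obtain ⟨M', hM⟩ := S.cyl _ _ ((d n).1.mem_nhds c3)
    obtain ⟨r, r1, r2⟩ := Metric.nhds_basis_closedBall.mem_iff.1 (inter_mem (inter_mem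
      (o1.mem_nhds c1) ((d n).1.mem_nhds c2)) ((S.cont (w * g)).continuousAt.eventually hM))
    have r3 : closure (Metric.ball c (min r ((1 / 2) ^ n / 2))) ⊆ Metric.closedBall c r :=
      Metric.closure_ball_subset_closedBall.trans
        (Metric.closedBall_subset_closedBall (min_le_left _ _))
    refine ⟨⟨⟨Metric.ball c (min r ((1 / 2) ^ n / 2)), w * g, M + M' + m + 1⟩, Metric.isOpen_ball,
      ⟨c, Metric.mem_ball_self (by positivity)⟩, fun z hz => h3 (o3 (r2 (r3 (subset_closure hz))).1.1),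
      mul_mem h4 (S.fanti h5 g1), by dsimp only at *; omega⟩, g, O', M, rfl, g1,
      by dsimp only; omega, by dsimp only; omega, o4, o3, fun x hx y hy => ?_, fun z hz =>
      ⟨(r2 (r3 hz)).1.1, (r2 (r3 hz)).1.2, fun u hu => (r2 (r3 hz)).2 u
        (S.anti (by dsimp only; omega) hu)⟩⟩
    rw [Metric.mem_ball, lt_min_iff] at hx hy
    linarith [dist_triangle_right x y c, hx.2, hy.2]
  choose nx g O' M h1 h2 h3 h4 h5 h6 h7 h8 using this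
  obtain ⟨s, hs, s0⟩ : ∃ s : ℕ → _, (∀ n, s (n + 1) = nx n (s n)) ∧ (s 0).1.2.1 = 1 :=
    ⟨fun n => Nat.rec ⟨(O₀, 1, m₀), hO, hn, Subset.rfl, one_mem _, le_rfl⟩ nx n, fun _ => rfl, rfl⟩
  have a1 : Antitone fun n => (s n).1.1 := antitone_nat_of_succ_le fun n z hz =>
    h6 n _ (h8 n (s n) z (hs n ▸ subset_closure hz)).1
  have a2 : StrictMono fun n => (s n).1.2.2 := strictMono_nat_of_lt_succ fun n =>
    (h4 n (s n)).trans_eq (by rw [hs])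
  choose c hc using fun n => (s n).2.2.1
  obtain ⟨z, hz⟩ := cauchySeq_tendsto_of_complete ((cauchySeq_shift 1).1
    (cauchySeq_of_le_geometric (1 / 2) 1 (f := fun n => c (n + 1)) (by norm_num) fun n => by
      rw [one_mul]
      exact h7 n (s n) _ (hs n ▸ hc _) _ (hs n ▸ a1 (Nat.le_succ _) (hc _))))
  have a3 : ∀ n, z ∈ closure (nx n (s n)).1.1 := fun n =>
    mem_closure_of_tendsto hz (eventually_atTop.2 ⟨n + 1, fun k hk => hs n ▸ a1 hk (hc k)⟩)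
  have a4 : ∀ n, (s (n + 1)).1.2.1 = (s n).1.2.1 * g n (s n) := fun n => by rw [hs, h1]
  have a5 : ∀ n, S.ag (s n).1.2.2 (S.ac z (s (n + 1)).1.2.1) (S.ac z (s n).1.2.1) := fun n => by
    rw [a4, S.mul]
    exact S.far_ag _ (h2 _ _)
  obtain ⟨z', hz'⟩ := S.lim (fun n => S.ac z (s n).1.2.1) fun n => S.anti (a2.id_le n) (a5 n)
  have a6 : ∀ n k, n ≤ k → S.ag (s n).1.2.2 (S.ac z (s k).1.2.1) (S.ac z (s n).1.2.1) :=
    fun n k h => by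
    induction k, h using Nat.le_induction with
    | base => exact S.refl _ _
    | succ k h ih => exact S.trans (S.anti (a2.monotone h) (a5 k)) ih
  have a7 : ∀ n, S.ag (s n).1.2.2 z' (S.ac z (s n).1.2.1) := fun n =>
    S.trans (S.anti (le_max_right n _) (hz' _)) (a6 _ _ (le_max_left _ _))
  refine ⟨fun n => (s n).1.2.1, fun n => g n (s n), fun n => (s n).1.2.2, fun n => M n (s n),
    fun n => O' n (s n), z, z', s0, a2.monotone, dG _ fun n => (h8 _ _ _ (a3 n)).2.1,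
    dG _ fun n => (h8 _ _ _ (a3 n)).2.2 _ (hs n ▸ a7 _), fun U hU => ?_,
    fun n => ⟨a4 n, h2 _ _, (h3 n (s n)).trans_eq (by rw [← hs]), h5 _ _, (h8 _ _ _ (a3 n)).1, a7 n⟩⟩
  obtain ⟨M, hM⟩ := S.cyl _ _ hU
  exact eventually_atTop.2 ⟨M, fun k hk => hM.self_of_nhds _ (S.symm (S.anti hk (hz' k)))⟩

end Pool.Agent.H.MP_ec05f5_lc
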