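import Mathlib

namespace Pool.Agent.H.MP_ec05f5_lc

open Filter Topology

/-- the difference tends to zero -/
def C0 (x y : ℕ → ℝ) : Prop := Tendsto (fun k => x k - y k) atTop (𝓝 0)

/-- the difference is in `ℓ⁴` -/
def L4 (x y : ℕ → ℝ) : Prop := Summable fun k => |x k - y k| ^ 4

variable {H : Type} [NormedAddCommGroup H] [InnerProductSpace ℂ H]

/-- the inner product -/
def ip (x y : H) : ℂ := @inner ℂ H InnerProductSpace.toInner x y

/-- the Borel structure generated by the matrix coefficients -/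
noncomputable def wot (H : Type) [NormedAddCommGroup H] [InnerProductSpace ℂ H] :
    MeasurableSpace (H →L[ℂ] H) :=
  ⨆ (ξ : H) (η : H), MeasurableSpace.comap (fun a : H →L[ℂ] H => ip (a ξ) η) Complex.measurableSpace

/-- the difference is compact -/
def Ess (a b : H →L[ℂ] H) : Prop := IsCompactOperator (a - b : H →L[ℂ] H)

/-- the difference `x` is in the Schatten 4-class: `|x|⁴ = (x* x)²` has finite trace -/
def Sch4 [CompleteSpace H] (e : HilbertBasis ℕ ℂ H) (a b : H →L[ℂ] H) : Prop :=
  Summable fun i => (ip (e i) (((star (a - b) * (a - b)) ^ 2) (e i))).re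

/-- `E` restricted to the class `P` of operators is Borel reducible to `F` on real sequences -/
def Red (P : (H →L[ℂ] H) → Prop) (E : (H →L[ℂ] H) → (H →L[ℂ] H) → Prop)
    (F : (ℕ → ℝ) → (ℕ → ℝ) → Prop) : Prop :=
  ∃ f : {a // P a} → ℕ → ℝ, @Measurable _ _ ((wot H).comap Subtype.val) _ f ∧
    ∀ a b, E a.1 b.1 ↔ F (f a) (f b)

end Pool.Agent.H.MP_ec05f5_lc
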