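import Mathlib
import Pool.Agent.H.MP_ec05f5_lc.A
import Pool.Agent.H.MP_ec05f5_lc.Defs

namespace Pool.Agent.H.MP_ec05f5_lc

open Set Function Filter Topology TopologicalSpace

variable {Z Γ : Type} [TopologicalSpace Z] [Group Γ] (S : Sys Z Γ) [IsCompletelyMetrizableSpace Z]
  {G : Set Z} {F : Z → ℕ → ℝ}

omit [IsCompletelyMetrizableSpace Z] in
theorem Sys.cF (hF : ContinuousOn F G) (inv : ∀ z ∈ G, ∀ g, S.ac z g ∈ G) (w : Γ) (k : ℕ) :
    ContinuousOn (fun z => F (S.ac z w) k) G :=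
  (continuous_apply k).comp_continuousOn (hF.comp (S.cont w).continuousOn fun z hz => inv z hz w)

theorem Sys.tail (hG : G ∈ residual Z) (hF : ContinuousOn F G)
    (inv : ∀ z ∈ G, ∀ g, S.ac z g ∈ G) (hΓ : ∀ z g, C0 (F (S.ac z g)) (F z)) {O : Set Z}
    (hO : IsOpen O) (hn : O.Nonempty) (w : Γ) {ε : ℝ} (hε : 0 < ε) :
    ∃ K O', IsOpen O' ∧ O'.Nonempty ∧ O' ⊆ O ∧ ∀ z ∈ O', z ∈ G → ∀ k, K ≤ k →
      |F (S.ac z w) k - F z k| ≤ ε := by
  obtain ⟨K, O', h1, h2, h3, h4⟩ := baire hG hO hn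
    (φ := fun K k z => |F (S.ac z w) (K + k) - F z (K + k)| - ε) (fun K k =>
      ((S.cF hF inv w _).sub ((continuous_apply _).comp_continuousOn hF)).abs.sub
        continuousOn_const) (Eventually.of_forall fun z _ => by
      obtain ⟨K, hK⟩ := Metric.tendsto_atTop.1 (hΓ z w) ε hε
      exact ⟨K, fun k => by simpa using (hK (K + k) (by omega)).le⟩)
  refine ⟨K, O', h1, h2, h3, fun z a b k hk => ?_⟩
  obtain ⟨k, rfl⟩ := Nat.exists_eq_add_of_le hk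
  exact sub_nonpos.1 (h4 z a b k)

theorem Sys.osc (hG : G ∈ residual Z) (hF : ContinuousOn F G)
    (inv : ∀ z ∈ G, ∀ g, S.ac z g ∈ G) {O : Set Z}
    (hO : IsOpen O) (hn : O.Nonempty) (w : Γ) {ε : ℝ} (hε : 0 < ε) (K m : ℕ) :
    ∃ O' M, IsOpen O' ∧ O'.Nonempty ∧ O' ⊆ O ∧ m ≤ M ∧ ∀ z ∈ O', z ∈ G → ∀ u ∈ G,
      S.ag M u (S.ac z w) → ∀ k < K, |F u k - F (S.ac z w) k| ≤ ε := by
  obtain ⟨z, z1, z2⟩ := (dense_of_mem_residual hG).inter_open_nonempty O hO hn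
  obtain ⟨O', M, h1, h2, h3, h4, h5⟩ := S.stab hO
    (Ψ := fun p => ε - ∑ k ∈ Finset.range K, |F p.1 k - F (S.ac p.2 w) k|)
    (continuousOn_const.sub (continuousOn_finset_sum _ fun k _ =>
      (((continuous_apply k).comp_continuousOn (hF.comp continuousOn_fst fun _ h => h.1)).sub
        ((S.cF hF inv w k).comp continuousOn_snd fun _ h => h.2)).abs))
    z1 z2 w (inv _ z2 _) (by simpa using hε) m
  exact ⟨O', M, h1, h2, h3, h4, fun z a b u c d k hk => (Finset.single_le_sum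
    (f := fun k => |F u k - F (S.ac z w) k|) (fun _ _ => abs_nonneg _)
    (Finset.mem_range.2 hk)).trans (sub_pos.1 (h5 z a b u c d)).le⟩

theorem Sys.small (hG : G ∈ residual Z) (hF : ContinuousOn F G)
    (inv : ∀ z ∈ G, ∀ g, S.ac z g ∈ G) (hΓ : ∀ z g, C0 (F (S.ac z g)) (F z)) (nrm : Γ → ℝ)
    (hsum : ∀ z z' (w g : ℕ → Γ), w 0 = 1 → (∀ n, w (n + 1) = w n * g n ∧ nrm (g n) ≤ (1 / 2) ^ n) →
      Tendsto (fun n => S.ac z (w n)) atTop (𝓝 z') → C0 (F z') (F z))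
    {O : Set Z} (hO : IsOpen O) (hn : O.Nonempty) {ε : ℝ} (hε : 0 < ε) :
    ∃ η > 0, ∃ m O', IsOpen O' ∧ O'.Nonempty ∧ O' ⊆ O ∧ ∀ g ∈ S.far m, nrm g ≤ η →
      ∀ z ∈ O', z ∈ G → ∀ k, |F (S.ac z g) k - F z k| ≤ ε := by
  by_contra hc
  push Not at hc
  obtain ⟨O₀, m₀, o1, o2, -, o3⟩ := S.shrink hO hn 0
  obtain ⟨w, g, m, M, O, z, z', h1, -, h2, h3, h4, h5⟩ := S.fusion hG o1 o2 m₀
    (fun n w _ g O' M => nrm g ≤ (1 / 2) ^ n ∧ ∃ k, n ≤ k ∧ ∀ z ∈ O', z ∈ G → ∀ u ∈ G,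
      S.ag M u (S.ac z (w * g)) → ε / 2 < |F u k - F z k|) fun n O w m a1 a2 a3 a4 a5 => by
    obtain ⟨K, O₁, b1, b2, b3, b4⟩ := S.tail hG hF inv hΓ a1 a2 w (half_pos hε)
    obtain ⟨O₂, M₂, c1, c2, c3, c4, c5⟩ := S.osc hG hF inv b1 b2 w hε (max K n) m
    obtain ⟨g, g1, g2, _, ⟨z, z1, rfl⟩, z2, k, hk⟩ := hc ((1 / 2) ^ n) (by positivity) M₂ _
      (S.opn w _ c1) (c2.image _) (by
        rintro _ ⟨z, hz, rfl⟩
        exact o3 z (a3 (b3 (c3 hz))) w a4)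
    have z3 : z ∈ G := by simpa [← S.mul, S.one] using inv _ z2 w⁻¹
    have k1 : max K n ≤ k := not_lt.1 fun h =>
      (c5 z z1 z3 _ (inv _ z2 g) (S.far_ag _ g1) k h).not_gt hk
    obtain ⟨O₃, M, d1, d2, d3, -, d4⟩ := S.stab c1 (Ψ := fun p => |F p.1 k - F p.2 k| - ε / 2)
      ((((continuous_apply k).comp_continuousOn (hF.comp continuousOn_fst fun _ h => h.1)).sub
        ((continuous_apply k).comp_continuousOn (hF.comp continuousOn_snd fun _ h => h.2))).abs.sub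
        continuousOn_const) z1 z3 (w * g) (inv _ z3 _) (by
          have := b4 z (c3 z1) z3 k (le_of_max_le_left k1)
          have := abs_sub_le (F (S.ac (S.ac z w) g) k) (F z k) (F (S.ac z w) k)
          rw [abs_sub_comm (F z k)] at this
          simp only [S.mul]
          linarith) 0
    exact ⟨g, S.fanti c4 g1, O₃, M, d1, d2, d3.trans (c3.trans b3), g2, k, le_of_max_le_right k1,
      fun z a b u c d => sub_pos.1 (d4 z a b u c d)⟩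
  obtain ⟨K, hK⟩ := Metric.tendsto_atTop.1
    (hsum z z' w g h1 (fun n => ⟨(h5 n).1, (h5 n).2.2.2.1.1⟩) h4) _ (half_pos hε)
  obtain ⟨a1, -, a2, ⟨-, k, a3, a4⟩, a5, -⟩ := h5 K
  exact (a4 z a5 h2 z' h3 (a1 ▸ S.anti a2 (h5 (K + 1)).2.2.2.2.2)).not_gt
    (by simpa using hK k a3)

theorem Sys.core (hG : G ∈ residual Z) (hF : ContinuousOn F G) [Nonempty Z]
    (inv : ∀ z ∈ G, ∀ g, S.ac z g ∈ G) (hΓ : ∀ z g, C0 (F (S.ac z g)) (F z)) (nrm : Γ → ℝ)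
    (hsum : ∀ z z' (w g : ℕ → Γ), w 0 = 1 → (∀ n, w (n + 1) = w n * g n ∧ nrm (g n) ≤ (1 / 2) ^ n) →
      Tendsto (fun n => S.ac z (w n)) atTop (𝓝 z') → C0 (F z') (F z))
    (Dat : Γ → ℕ → ℕ → Prop)
    (hdat : ∀ z z' (w g : ℕ → Γ) (m M : ℕ → ℕ), w 0 = 1 → Monotone m →
      (∀ n, w (n + 1) = w n * g n ∧ g n ∈ S.far (m n) ∧ M n ≤ m (n + 1) ∧ Dat (g n) (m n) (M n)) →
      Tendsto (fun n => S.ac z (w n)) atTop (𝓝 z') → ¬ C0 (F z') (F z))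
    (mat : ∀ η > 0, ∃ (N : ℕ) (h κ : ℕ → (ℕ → ℕ) → Γ), (∀ p, h 0 p = 1) ∧
      (∀ s ≤ N, ∀ p p', (∀ i < s, p i = p' i) → h s p = h s p') ∧ ∀ p, StrictMono p →
      (∀ m, (∀ i, m ≤ p i) → (∀ s, h s p ∈ S.far m) ∧ ∃ M, Dat (h N p) m M) ∧
      (∀ s M, (∀ i, s ≤ i → M ≤ p i) → κ s p ∈ S.far M) ∧ ∀ s < N,
        nrm ((h s p)⁻¹ * h (s + 1) p) ≤ η ∧ nrm ((h (s + 1) p * κ (s + 1) p)⁻¹ * h N p) ≤ η) :
    False := by
  have A : ∀ ε > 0, ∀ O : Set Z, IsOpen O → O.Nonempty → ∀ m, ∃ g ∈ S.far m, ∃ O' M,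
      IsOpen O' ∧ O'.Nonempty ∧ O' ⊆ O ∧ Dat g m M ∧ ∀ z ∈ O', z ∈ G → ∀ k,
      |F (S.ac z g) k - F z k| ≤ 4 * ε := fun ε hε O o1 o2 m => by
    obtain ⟨η, η1, m₁, O₁, a1, a2, a3, a4⟩ := S.small hG hF inv hΓ nrm hsum o1 o2 hε
    obtain ⟨O₂, m₂, b1, b2, b3, b4⟩ := S.shrink a1 a2 (max m m₁)
    obtain ⟨N, h, κ, c1, c2, c3⟩ := mat η η1
    have sm : ∀ z ∈ O₂, z ∈ G → ∀ u ∈ S.far m₂, ∀ v ∈ S.far m₂, nrm (u⁻¹ * v) ≤ η → ∀ k,
        |F (S.ac z v) k - F (S.ac z u) k| ≤ ε := fun z hz hzG u hu v hv e k => by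
      simpa [← S.mul] using a4 _ (S.fanti (le_of_max_le_right b3) (mul_mem (inv_mem hu) hv)) e _
        (b4 z hz u hu) (inv _ hzG u) k
    have up : ∀ s M (p : ℕ → ℕ), StrictMono p → ∃ q : ℕ → ℕ, StrictMono q ∧ (∀ i < s, q i = p i) ∧
        (∀ i, s ≤ i → M ≤ q i) ∧ ∀ i, p i ≤ q i := fun s M p hp =>
      ⟨fun i => if i < s then p i else p i + M, fun i j hij => by
        have := hp hij
        dsimp only
        split_ifs <;> omega, fun i hi => if_pos hi, fun i hi => by simp [hi.not_gt],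
        fun i => by dsimp only; split_ifs <;> omega⟩
    have : ∀ s ≤ N, ∃ (p : ℕ → ℕ) (O : Set Z) (K M : ℕ), StrictMono p ∧ (∀ i, m₂ ≤ p i) ∧
        IsOpen O ∧ O.Nonempty ∧ O ⊆ O₂ ∧ m₂ ≤ M ∧
        (∀ z ∈ O, z ∈ G → ∀ k, K ≤ k → |F (S.ac z (h s p)) k - F z k| ≤ ε) ∧
        ∀ q, StrictMono q → (∀ i < s, q i = p i) → (∀ i, s ≤ i → M ≤ q i) →
          ∀ z ∈ O, z ∈ G → ∀ k < K, |F (S.ac z (h N q)) k - F z k| ≤ 4 * ε := fun s hs => by
      induction s with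
      | zero => exact ⟨fun i => m₂ + i, O₂, 0, m₂, fun i j h => by dsimp only; omega,
          fun i => by simp, b1, b2, Subset.rfl, le_rfl, fun z _ _ k _ => by simp [c1, S.one, hε.le],
          fun _ _ _ _ _ _ _ k hk => by omega⟩
      | succ s ih =>
        obtain ⟨p, O, K, M, d1, d2, d3, d4, d5, d6, d7, d8⟩ := ih (by omega)
        obtain ⟨q, q1, q2, q3, q4⟩ := up s M p d1
        obtain ⟨K', O', e1, e2, e3, e4⟩ := S.tail hG hF inv hΓ d3 d4 (h (s + 1) q) hε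
        obtain ⟨O'', M', f1, f2, f3, f4, f5⟩ := S.osc hG hF inv e1 e2 (h (s + 1) q) hε K' M
        refine ⟨q, O'', max K K', M', q1, fun i => (d2 i).trans (q4 i), f1, f2,
          f3.trans (e3.trans d5), d6.trans f4, fun z a b k hk =>
          e4 z (f3 a) b k (le_of_max_le_right hk), fun r r1 r2 r3 z a b k hk => ?_⟩
        have r4 : ∀ i < s, r i = p i := fun i hi => (r2 i (by omega)).trans (q2 i hi)
        have r5 : ∀ i, s ≤ i → M ≤ r i := fun i hi => by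
          rcases hi.eq_or_lt with rfl | hi
          · exact (q3 _ le_rfl).trans_eq (r2 _ (by omega)).symm
          · exact f4.trans (r3 i hi)
        by_cases hK : k < K
        · exact d8 r r1 r4 r5 z (e3 (f3 a)) b k hK
        obtain ⟨g1, g2, g3⟩ := c3 r r1
        have g4 := (g1 m₂ fun i => by
          by_cases hi : i < s
          · exact (d2 i).trans_eq (r4 i hi).symm
          · exact d6.trans (r5 i (not_lt.1 hi))).1
        have g5 := g2 _ _ r3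
        have z2 := d5 (e3 (f3 a))
        have i1 := sm z z2 b _ (mul_mem (g4 _) (S.fanti (d6.trans f4) g5)) _ (g4 _)
          (g3 s (by omega)).2 k
        have i2 := f5 z a b _ (inv _ (inv _ b _) _) (S.far_ag _ g5) k (by omega)
        have i3 := sm z z2 b _ (g4 _) _ (g4 _) (g3 s (by omega)).1 k
        have i4 := d7 z (e3 (f3 a)) b k (not_lt.1 hK)
        rw [← c2 _ hs r q r2, ← S.mul] at i2
        rw [← c2 _ (by omega) r p r4] at i4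
        rw [abs_le] at *
        constructor <;> linarith [i1.1, i1.2, i2.1, i2.2, i3.1, i3.2, i4.1, i4.2]
    obtain ⟨p, O', K, M, d1, d2, d3, d4, d5, -, d7, d8⟩ := this N le_rfl
    obtain ⟨q, q1, q2, q3, -⟩ := up N M p d1
    obtain ⟨e1, M', e2⟩ := (c3 p d1).1 m fun i => (le_of_max_le_left b3).trans (d2 i)
    refine ⟨_, e1 N, O', M', d3, d4, fun z hz => a3 (by
      simpa [S.one] using b4 z (d5 hz) 1 (one_mem _)), e2, fun z a b k => ?_⟩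
    by_cases hK : k < K
    · rw [← c2 _ le_rfl q p q2]
      exact d8 q q1 q2 q3 z a b k hK
    · linarith [d7 z a b k (not_lt.1 hK)]
  obtain ⟨w, g, m, M, O, z, z', h1, h0, h2, h3, h4, h5⟩ := S.fusion hG isOpen_univ univ_nonempty 0
    (fun n w m g O' M => Dat g m M ∧ ∀ z ∈ O', z ∈ G → ∀ k,
      dist (F (S.ac z w) k) (F (S.ac z (w * g)) k) ≤ 4 * (1 / 2) ^ n) fun n O w m a1 a2 _ _ _ => by
    obtain ⟨g, g1, O', M, b1, ⟨u, b2⟩, b3, b4, b5⟩ := A ((1 / 2) ^ n) (by positivity) _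
      (S.opn w _ a1) (a2.image _) m
    obtain ⟨z, z1, rfl⟩ := b3 b2
    refine ⟨g, g1, O ∩ (S.ac · w) ⁻¹' O', M, a1.inter (b1.preimage (S.cont w)), ⟨z, z1, b2⟩,
      inter_subset_left, b4, fun z a b k => ?_⟩
    rw [dist_comm, S.mul]
    exact b5 _ a.2 (inv _ b _) k
  refine hdat z z' w g m M h1 h0 (fun n => ⟨(h5 n).1, (h5 n).2.1, (h5 n).2.2.1,
    (h5 n).2.2.2.1.1⟩) h4 (Metric.tendsto_atTop.2 fun ε hε => ?_)
  obtain ⟨n, hn⟩ := exists_pow_lt_of_lt_one (show 0 < ε / 16 by positivity)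
    (show (1 / 2 : ℝ) < 1 by norm_num)
  obtain ⟨K, hK⟩ := Metric.tendsto_atTop.1 (hΓ z (w n)) _ (half_pos hε)
  refine ⟨K, fun k hk => ?_⟩
  have a := dist_le_of_le_geometric_of_tendsto (1 / 2) 4 (by norm_num)
    (f := fun n => F (S.ac z (w n)) k) (fun n => (h5 n).1 ▸ (h5 n).2.2.2.1.2 z (h5 n).2.2.2.2.1 h2 k)
    (((continuous_apply k).tendsto _).comp ((hF z' h3).tendsto.comp
      (tendsto_nhdsWithin_iff.2 ⟨h4, Eventually.of_forall fun n => inv _ h2 _⟩))) n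
  have b := hK k hk
  rw [show 4 * (1 / 2 : ℝ) ^ n / (1 - 1 / 2) = 8 * (1 / 2) ^ n by ring] at a
  simp only [Real.dist_eq, sub_zero, abs_lt, abs_le] at a b ⊢
  constructor <;> linarith [a.1, a.2, b.1, b.2]

end Pool.Agent.H.MP_ec05f5_lc
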