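import Mathlib

namespace Pool.Agent.H.MP_ec05f5_lc

open Finset InnerProductSpace

variable {H : Type} [NormedAddCommGroup H] [InnerProductSpace ℂ H]

/-- flat vectors over four-adic intervals -/
noncomputable def xi (v : ℕ → H) : ℕ → ℕ → H
  | 0, q => v q
  | j + 1, q => (1 / 2 : ℂ) • ∑ t ∈ range 4, xi v j (4 * q + t)

theorem dv {a j q t : ℕ} (ht : t ∈ range 4) (h : a / 4 ^ j = 4 * q + t) : a / 4 ^ (j + 1) = q := by
  rw [pow_succ, ← Nat.div_div_eq_div_mul, h]
  have := mem_range.1 ht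
  omega

theorem xi_congr {v v' : ℕ → H} {j q : ℕ} (h : ∀ a, a / 4 ^ j = q → v a = v' a) :
    xi v j q = xi v' j q := by
  induction j generalizing q with
  | zero => exact h q (by simp)
  | succ j ih =>
    rw [xi, xi, sum_congr rfl fun t ht => ih fun a ha => h a (dv ht ha)]

theorem xi_map (T : H →L[ℂ] H) (v : ℕ → H) (j q : ℕ) : T (xi v j q) = xi (T ∘ v) j q := by
  induction j generalizing q with
  | zero => rfl
  | succ j ih => simp [xi, ih]

theorem perp {v : ℕ → H} {u : H} {j q : ℕ} (h : ∀ a, a / 4 ^ j = q → inner ℂ (v a) u = 0) :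
    inner ℂ (xi v j q) u = 0 := by
  induction j generalizing q with
  | zero => exact h q (by simp)
  | succ j ih =>
    rw [xi, inner_smul_left, sum_inner, sum_eq_zero fun t ht => ih fun a ha => h a (dv ht ha),
      mul_zero]

theorem perp2 {v v' : ℕ → H} {i j q q' : ℕ}
    (h : ∀ a a', a / 4 ^ i = q → a' / 4 ^ j = q' → inner ℂ (v a) (v' a') = 0) :
    inner ℂ (xi v i q) (xi v' j q') = 0 :=
  perp fun a ha => inner_eq_zero_symm.1 (perp fun a' ha' => inner_eq_zero_symm.1 (h a a' ha ha'))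

theorem sum4 (c q : ℕ) (x : ℂ) :
    ∑ t ∈ range 4, (if c = 4 * q + t then x else 0) = if c / 4 = q then x else 0 := by
  simp only [sum_range_succ, sum_range_zero]
  split_ifs <;> first | omega | simp

theorem inn0 {v : ℕ → H} {j : ℕ}
    (h : ∀ a q, inner ℂ (xi v j a) (xi v j q) = if a = q then 1 else 0) (d a q : ℕ) :
    inner ℂ (xi v j a) (xi v (j + d) q) = if a / 4 ^ d = q then (1 / 2) ^ d else 0 := by
  induction d generalizing q with
  | zero => simp [h]
  | succ d ih =>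
    rw [← add_assoc, xi, inner_smul_right, inner_sum]
    simp only [ih, sum4, pow_succ, ← Nat.div_div_eq_div_mul]
    split_ifs <;> ring

theorem orth {v : ℕ → H} (hv : Orthonormal ℂ v) (j a q : ℕ) :
    inner ℂ (xi v j a) (xi v j q) = if a = q then 1 else 0 := by
  induction j generalizing a q with
  | zero => exact orthonormal_iff_ite.1 hv a q
  | succ j ih =>
    conv_lhs => arg 2; rw [xi]
    rw [inner_smul_left, sum_inner]
    simp only [inn0 ih, sum_range_succ, sum_range_zero]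
    split_ifs <;> first | omega | norm_num [map_ofNat]

theorem vec {ξ : ℕ → H} (h1 : ∀ j, ‖ξ j‖ = 1)
    (h2 : ∀ j k, j ≤ k → inner ℂ (ξ (k + 1)) (ξ j) = 1 / 2 * inner ℂ (ξ k) (ξ j)) {a : ℕ → ℂ}
    {c : ℝ} (h : ∀ j, ‖a j‖ ≤ c) (n : ℕ) : ‖∑ j ∈ range n, a j • ξ j‖ ^ 2 ≤ 3 * n * c ^ 2 ∧
      ‖inner ℂ (ξ n) (∑ j ∈ range n, a j • ξ j)‖ ≤ c := by
  have c0 := (norm_nonneg _).trans (h 0)
  induction n with
  | zero => simpa
  | succ n ih =>
    constructor
    · rw [sum_range_succ, add_comm, @norm_add_sq ℂ, inner_smul_left, norm_smul, h1]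
      have a1 := (RCLike.re_le_norm _).trans ((norm_mul_le (starRingEnd ℂ (a n)) _).trans
        (mul_le_mul ((Complex.norm_conj _).trans_le (h n)) ih.2 (norm_nonneg _) c0))
      have a2 := pow_le_pow_left₀ (norm_nonneg _) (h n) 2
      push_cast
      nlinarith [ih.1]
    · have : inner ℂ (ξ (n + 1)) (∑ j ∈ range (n + 1), a j • ξ j) =
          1 / 2 * (inner ℂ (ξ n) (∑ j ∈ range n, a j • ξ j) + a n) := by
        rw [inner_sum, inner_sum, sum_congr rfl fun j hj => by
          rw [inner_smul_right, h2 j n (Nat.lt_succ_iff.1 (mem_range.1 hj)), mul_left_comm,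
            ← inner_smul_right], ← mul_sum, sum_range_succ, inner_smul_right,
          inner_self_eq_norm_sq_to_K, h1]
        simp
      rw [this, norm_mul]
      have := (norm_add_le _ _).trans (add_le_add ih.2 (h n))
      rw [show ‖(1 / 2 : ℂ)‖ = 1 / 2 by simp]
      linarith

theorem bound {v : ℕ → H} (hv : Orthonormal ℂ v) (s n : ℕ) {a : ℕ → ℂ} {c η : ℝ}
    (h : ∀ j, ‖a j‖ ≤ c) (hη : 0 ≤ η) (hn : 3 * n * c ^ 2 ≤ η ^ 2) :
    ‖∑ j ∈ range n, a j • rankOne ℂ (xi v j (s / 4 ^ j)) (xi v j (s / 4 ^ j))‖ ≤ η := by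
  have h1 : ∀ j, ‖xi v j (s / 4 ^ j)‖ = 1 := fun j =>
    (orthonormal_iff_ite.2 (orth hv j)).1 _
  refine ContinuousLinearMap.opNorm_le_bound _ hη fun x => ?_
  have := (vec (ξ := fun j => xi v j (s / 4 ^ j)) h1 (fun j k hk => by
    obtain ⟨d, rfl⟩ := Nat.exists_eq_add_of_le hk
    rw [← inner_conj_symm, ← inner_conj_symm (xi v (j + d) _), add_assoc, inn0 (orth hv j),
      inn0 (orth hv j)]
    simp [Nat.div_div_eq_div_mul, pow_add, mul_comm, map_ofNat])
    (a := fun j => a j * inner ℂ (xi v j (s / 4 ^ j)) x) (c := c * ‖x‖) (fun j => by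
      rw [norm_mul]
      refine mul_le_mul (h j) ((norm_inner_le_norm _ _).trans_eq ?_) (norm_nonneg _)
        ((norm_nonneg _).trans (h j))
      rw [h1, one_mul]) n).1
  simp only [ContinuousLinearMap.sum_apply, ContinuousLinearMap.smul_apply, rankOne_apply,
    smul_smul]
  refine le_of_sq_le_sq (this.trans ?_) (by positivity)
  nlinarith [sq_nonneg ‖x‖]

/-- the interval is contained in `A` -/
def In (A : Finset ℕ) (j q : ℕ) : Prop := ∀ i, i / 4 ^ j = q → i ∈ A

open Classical in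
/-- intervals contained in `A` -/
noncomputable def SS (A : Finset ℕ) (j : ℕ) : Finset ℕ := (A.image (· / 4 ^ j)).filter (In A j)

theorem dq (j q : ℕ) : q * 4 ^ j / 4 ^ j = q := Nat.mul_div_cancel _ (by positivity)

theorem mem_SS {A : Finset ℕ} {j q : ℕ} : q ∈ SS A j ↔ In A j q := by
  simp only [SS, mem_filter, mem_image, and_iff_right_iff_imp]
  exact fun h => ⟨_, h _ (dq j q), dq j q⟩

/-- averaging projections -/
noncomputable def EE (v : ℕ → H) (A : Finset ℕ) (j : ℕ) : H →L[ℂ] H :=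
  ∑ q ∈ SS A j, rankOne ℂ (xi v j q) (xi v j q)

theorem EE_fix {v : ℕ → H} (hv : Orthonormal ℂ v) {A : Finset ℕ} {i j q : ℕ} (h : i ≤ j)
    (hq : In A j q) : EE v A i (xi v j q) = xi v j q := by
  induction j, h using Nat.le_induction generalizing q with
  | base => simp [EE, orth hv, mem_SS.2 hq]
  | succ j h ih =>
    rw [xi, map_smul, map_sum, sum_congr rfl fun t ht => ih fun a ha => hq a (dv ht ha)]

theorem EE_mul {v : ℕ → H} (hv : Orthonormal ℂ v) (A : Finset ℕ) {i j : ℕ} (h : i ≤ j) :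
    EE v A i * EE v A j = EE v A j := by
  ext x
  conv_lhs => arg 1; arg 2; rw [EE]
  conv_rhs => rw [EE]
  simp only [ContinuousLinearMap.mul_apply, ContinuousLinearMap.sum_apply, rankOne_apply, map_sum,
    map_smul]
  exact sum_congr rfl fun q hq => by rw [EE_fix hv h (mem_SS.1 hq)]

theorem EE_zero {v : ℕ → H} {A : Finset ℕ} {j : ℕ} {u : H}
    (h : ∀ q, In A j q → inner ℂ (xi v j q) u = 0) : EE v A j u = 0 := by
  simp only [EE, ContinuousLinearMap.sum_apply, rankOne_apply]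
  exact sum_eq_zero fun q hq => by rw [h q (mem_SS.1 hq), zero_smul]

theorem EE_cross {v : ℕ → H} (hv : Orthonormal ℂ v) {A B : Finset ℕ} (h : Disjoint A B) (i j : ℕ) :
    EE v A i * EE v B j = 0 := by
  ext x
  conv_lhs => arg 1; arg 2; rw [EE]
  simp only [ContinuousLinearMap.mul_apply, ContinuousLinearMap.sum_apply, rankOne_apply, map_sum,
    map_smul]
  exact sum_eq_zero fun q hq => by
    rw [EE_zero fun q' hq' => perp2 fun a a' ha ha' => hv.2 fun e : a = a' =>
      disjoint_left.1 h (hq' a ha) (e ▸ mem_SS.1 hq a' ha'), smul_zero]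

/-- the unitaries -/
noncomputable def Hop (v : ℕ → H) (A : Finset ℕ) (ω : ℂ) (n : ℕ) : H →L[ℂ] H :=
  1 + ∑ j ∈ range n, (ω ^ j * (ω - 1)) • EE v A j

theorem Hop_congr {v v' : ℕ → H} {A : Finset ℕ} (h : ∀ a ∈ A, v a = v' a) (ω : ℂ) (n : ℕ) :
    Hop v A ω n = Hop v' A ω n := by
  unfold Hop EE
  congr 1
  refine sum_congr rfl fun j _ => congrArg _ (sum_congr rfl fun q hq => ?_)
  rw [xi_congr fun a ha => h a (mem_SS.1 hq a ha)]

theorem Hop_fix {v : ℕ → H} {A : Finset ℕ} {u : H} (h : ∀ a ∈ A, inner ℂ (v a) u = 0) (ω : ℂ)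
    (n : ℕ) : Hop v A ω n u = u := by
  simp only [Hop, ContinuousLinearMap.add_apply, ContinuousLinearMap.sum_apply,
    ContinuousLinearMap.smul_apply]
  rw [sum_eq_zero fun j _ => by
    rw [EE_zero fun q hq => perp fun a ha => h a (hq a ha), smul_zero]]
  simp

theorem Hop_eig {v : ℕ → H} {A : Finset ℕ} {u : H} (ω : ℂ) {n : ℕ}
    (h : ∀ j < n, EE v A j u = u) : Hop v A ω n u = ω ^ n • u := by
  simp only [Hop, ContinuousLinearMap.add_apply, ContinuousLinearMap.sum_apply,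
    ContinuousLinearMap.smul_apply]
  rw [sum_congr rfl fun j hj => by rw [h j (mem_range.1 hj)], ← sum_smul, ← sum_mul, geom_sum_mul,
    sub_smul]
  simp

theorem Hop_cpt (v : ℕ → H) (A : Finset ℕ) (ω : ℂ) (n : ℕ) :
    IsCompactOperator (Hop v A ω n - 1 :) := by
  rw [Hop, add_sub_cancel_left]
  exact (compactOperator (RingHom.id ℂ) H H).sum_mem fun j _ => Submodule.smul_mem _ _
    (Submodule.sum_mem _ fun q _ => (isCompactOperator_of_locallyCompactSpace_dom
      (innerSL ℂ _)).clm_comp (ContinuousLinearMap.toSpanSingleton ℂ _))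

theorem one_diff {S T : Finset ℕ} (h : T ⊆ S) {c : ℕ} (h2 : ∀ q ∈ S, q ∉ T → q = c)
    (f : ℕ → H →L[ℂ] H) : ∃ θ : ℂ, ‖θ‖ ≤ 1 ∧ ∑ q ∈ S, f q - ∑ q ∈ T, f q = θ • f c := by
  rw [← sum_sdiff h, add_sub_cancel_right]
  rcases subset_singleton_iff.1 (fun q hq => mem_singleton.2
    (h2 q (mem_sdiff.1 hq).1 (mem_sdiff.1 hq).2) : S \ T ⊆ {c}) with e | e <;> rw [e]
  · exact ⟨0, by simp, by simp⟩
  · exact ⟨1, by simp, by simp⟩

theorem nb {ω θ : ℂ} (h : ‖ω‖ = 1) (h2 : ‖θ‖ ≤ 1) (j : ℕ) : ‖ω ^ j * (ω - 1) * θ‖ ≤ ‖ω - 1‖ := by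
  simpa [h] using mul_le_of_le_one_right (norm_nonneg _) h2

theorem Hop_step {v : ℕ → H} (hv : Orthonormal ℂ v) {ω : ℂ} (hω : ‖ω‖ = 1) (s n : ℕ) {η : ℝ}
    (hη : 0 ≤ η) (hn : 3 * n * ‖ω - 1‖ ^ 2 ≤ η ^ 2) :
    ‖Hop v (range (s + 1)) ω n - Hop v (range s) ω n‖ ≤ η := by
  choose θ h1 h2 using fun j => one_diff (S := SS (range (s + 1)) j) (T := SS (range s) j)
    (fun q hq => mem_SS.2 fun i hi => range_mono (Nat.le_succ _) (mem_SS.1 hq i hi))
    (c := s / 4 ^ j) (fun q h1 h2 => by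
      simp only [mem_SS, In, mem_range, not_forall] at h1 h2
      obtain ⟨i, rfl, h3⟩ := h2
      rw [show i = s by have := h1 i rfl; omega]) fun q => rankOne ℂ (xi v j q) (xi v j q)
  convert bound hv s n (fun j => nb hω (h1 j) j) hη hn using 2
  simp only [Hop, EE, add_sub_add_left_eq_sub, ← sum_sub_distrib, ← smul_sub, h2, smul_smul]

theorem Hop_cut {v : ℕ → H} (hv : Orthonormal ℂ v) {ω : ℂ} (hω : ‖ω‖ = 1) {s N : ℕ} (hs : s ≤ N)
    (n : ℕ) {η : ℝ} (hη : 0 ≤ η) (hn : 3 * n * ‖ω - 1‖ ^ 2 ≤ η ^ 2) :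
    ‖Hop v (range N) ω n - Hop v (range s) ω n * Hop v (Ico s N) ω n‖ ≤ η := by
  have d : Disjoint (range s) (Ico s N) := disjoint_left.2 fun i h1 h2 => by
    simp at h1 h2
    omega
  choose θ h1 h2 using fun j => one_diff (S := SS (range N) j)
    (T := SS (range s) j ∪ SS (Ico s N) j)
    (fun q hq => mem_SS.2 fun i hi => by
      rcases mem_union.1 hq with h | h
      · exact range_mono hs (mem_SS.1 h i hi)
      · exact mem_range.2 (mem_Ico.1 (mem_SS.1 h i hi)).2)
    (c := s / 4 ^ j) (fun q h1 h2 => by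
      simp only [mem_union, mem_SS, In, mem_range, mem_Ico, not_or, not_forall] at h1 h2
      obtain ⟨⟨i, rfl, h3⟩, i', h4, h5⟩ := h2
      have := h1 i' h4
      exact le_antisymm (h4 ▸ Nat.div_le_div_right (by omega)) (Nat.div_le_div_right (by omega)))
    fun q => rankOne ℂ (xi v j q) (xi v j q)
  convert bound hv s n (fun j => nb hω (h1 j) j) hη hn using 2
  have e : ∀ j, EE v (range N) j - (EE v (range s) j + EE v (Ico s N) j) = _ := fun j => by
    rw [EE, EE, EE, ← sum_union (disjoint_left.2 fun q a b =>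
      disjoint_left.1 d (mem_SS.1 a _ (dq j q)) (mem_SS.1 b _ (dq j q))), h2]
  simp only [Hop, add_mul, mul_add, one_mul, mul_one, sum_mul, mul_sum, smul_mul_smul_comm,
    EE_cross hv d, smul_zero, sum_const_zero, add_zero, mul_smul, ← e, smul_sub, smul_add,
    sum_sub_distrib, sum_add_distrib]
  abel

variable [CompleteSpace H]

theorem Hop_unit {v : ℕ → H} (hv : Orthonormal ℂ v) (A : Finset ℕ) {ω : ℂ} (hω : ‖ω‖ = 1)
    (n : ℕ) : Hop v A ω n ∈ unitary (H →L[ℂ] H) := by
  induction n with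
  | zero => simp [Hop]
  | succ n ih =>
    have e1 : Hop v A ω n * EE v A n = ω ^ n • EE v A n := ContinuousLinearMap.ext fun x =>
      Hop_eig ω fun j hj => DFunLike.congr_fun (EE_mul hv A hj.le) x
    have e2 : Hop v A ω (n + 1) = Hop v A ω n * (1 + (ω - 1) • EE v A n) := by
      rw [mul_add, mul_smul_comm, e1, mul_one, Hop, Hop, sum_range_succ, smul_smul, mul_comm,
        add_assoc]
    have e3 : star (EE v A n) = EE v A n := by
      simp [EE, star_sum, ContinuousLinearMap.star_eq_adjoint]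
    have e4 : starRingEnd ℂ ω * ω = 1 := by
      rw [Complex.conj_mul', hω]
      simp
    rw [e2]
    refine mul_mem ih ⟨?_, ?_⟩ <;>
    · simp only [star_add, star_one, star_smul, e3, add_mul, mul_add, one_mul, mul_one,
        smul_mul_smul_comm, EE_mul hv A le_rfl, add_assoc, ← add_smul, add_eq_left]
      convert zero_smul ℂ _
      simp only [star_sub, star_one, RCLike.star_def]
      linear_combination e4

end Pool.Agent.H.MP_ec05f5_lc
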