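import Mathlib
import Pool.Agent.H.MP_ec05f5_lc.B
import Pool.Agent.H.MP_ec05f5_lc.C

namespace Pool.Agent.H.MP_ec05f5_lc

open Set Function Filter Topology TopologicalSpace

variable {H : Type} [NormedAddCommGroup H] [InnerProductSpace ℂ H] [CompleteSpace H] {ι : Type}
  (b : HilbertBasis ι ℂ H)

/-- the isometry sending the basis to an orthonormal family -/
noncomputable def V (z : {z : ι → H // Orthonormal ℂ z}) : H →L[ℂ] H :=
  (z.2.orthogonalFamily.linearIsometry.comp b.repr.toLinearIsometry).toContinuousLinearMap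

theorem V_b (z : {z : ι → H // Orthonormal ℂ z}) (i : ι) : V b z (b i) = z.1 i := by
  classical
  simp [V, b.repr_self]

theorem V_iso (z : {z : ι → H // Orthonormal ℂ z}) : star (V b z) * V b z = 1 :=
  LinearIsometry.adjoint_comp_self _

omit [CompleteSpace H] in
theorem dn : Dense (Submodule.span ℂ (range b) : Set H) :=
  Submodule.dense_iff_topologicalClosure_eq_top.2 b.dense_span

omit [CompleteSpace H] in
theorem bext {S T : H →L[ℂ] H} (h : ∀ i, S (b i) = T (b i)) : S = T :=
  ContinuousLinearMap.ext_on (dn b) (forall_mem_range.2 h)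

theorem V_cont (x : H) : Continuous fun z => V b z x := by
  refine (continuous_prod_of_dense_continuous_lipschitzWith (fun p : H × _ => V b p.2 p.1) 1 (dn b)
    (fun x hx => ?_) fun z => (z.2.orthogonalFamily.linearIsometry.comp
      b.repr.toLinearIsometry).lipschitz).comp (Continuous.prodMk_right x)
  induction hx using Submodule.span_induction with
  | mem x h =>
    obtain ⟨i, rfl⟩ := h
    simp only [V_b]
    exact (continuous_apply i).comp continuous_subtype_val
  | zero => simpa using continuous_const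
  | add x y _ _ h1 h2 => simp only [map_add]; exact h1.add h2
  | smul c x _ h => simp only [map_smul]; exact h.const_smul c

theorem iso_inner {T : H →L[ℂ] H} (h : star T * T = 1) (x y : H) :
    inner ℂ (T x) (T y) = inner ℂ x y := T.inner_map_map_iff_adjoint_comp_self.2 h x y

/-- the right action of isometries -/
noncomputable def acT (z : {z : ι → H // Orthonormal ℂ z}) (g : unitary (H →L[ℂ] H)) :
    {z : ι → H // Orthonormal ℂ z} :=
  ⟨fun i => V b z (g.1 (b i)), by
    classical
    rw [orthonormal_iff_ite]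
    intro i j
    rw [iso_inner (V_iso b z), iso_inner g.2.1, orthonormal_iff_ite.1 b.orthonormal]⟩

theorem V_acT (z : {z : ι → H // Orthonormal ℂ z}) (g : unitary (H →L[ℂ] H)) :
    V b (acT b z g) = V b z * g := bext b fun i => V_b b _ i

omit [CompleteSpace H] in
theorem fix {g : H →L[ℂ] H} {x : H} (h : ∀ i, inner ℂ (b i) x = 0 ∨ g (b i) = b i) : g x = x := by
  refine ((b.hasSum_repr x).mapL g).unique ?_
  convert b.hasSum_repr x using 2 with i
  rcases h i with h | h <;> simp [b.repr_apply_apply, h]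

theorem cpt {P u v w : H →L[ℂ] H} (hu : star u * u = 1) (hv : star v * v = 1) (h : v = u * w)
    (hw : IsCompactOperator (w - 1 :)) : Ess (v * P * star v) (u * P * star u) := by
  have e : star w * w = 1 := by
    rw [← hv, h, star_mul, mul_assoc, ← mul_assoc (star u), hu, one_mul]
  have : v * P * star v - u * P * star u =
      u * ((w - 1) * (P * star w * star u)) - u * P * star w * ((w - 1) * star u) := by
    rw [h, star_mul]
    simp only [mul_sub, sub_mul, one_mul, ← mul_assoc]
    rw [mul_assoc _ (star w) w, e]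
    simp
  rw [Ess, this]
  exact ((hw.comp_clm (P * star w * star u)).clm_comp u).sub
    ((hw.comp_clm (star u)).clm_comp (u * P * star w))

theorem meas [Countable ι] (P : H →L[ℂ] H) :
    @Measurable _ _ (borel _) (wot H) fun z => V b z * P * star (V b z) := by
  letI : MeasurableSpace {z : ι → H // Orthonormal ℂ z} := borel _
  haveI : BorelSpace {z : ι → H // Orthonormal ℂ z} := ⟨rfl⟩
  rw [measurable_iff_comap_le, wot]
  simp only [MeasurableSpace.comap_iSup, MeasurableSpace.comap_comp, iSup_le_iff]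
  refine fun ξ η => Measurable.comap_le (measurable_of_tendsto_metrizable' atTop
    (f := fun (s : Finset ι) z => ∑ i ∈ s, inner ℂ ξ (V b z (star P (b i))) *
      inner ℂ (V b z (b i)) η) (fun s => Continuous.measurable (continuous_finset_sum _ fun i _ =>
        (continuous_const.inner (V_cont b _)).mul ((V_cont b _).inner continuous_const)))
    (tendsto_pi_nhds.2 fun z => ?_))
  have := b.hasSum_inner_mul_inner (P (star (V b z) ξ)) (star (V b z) η)
  simp only [ContinuousLinearMap.star_eq_adjoint, ContinuousLinearMap.adjoint_inner_right] at this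
  simp only [ContinuousLinearMap.star_eq_adjoint, ← ContinuousLinearMap.adjoint_inner_left (V b z) _ ξ,
    ContinuousLinearMap.adjoint_inner_right]
  exact this

variable (b : HilbertBasis (ℕ × Bool) ℂ H)

/-- the root of unity -/
noncomputable def om (n : ℕ) : ℂ := Complex.exp (Complex.I * (Real.pi / n : ℝ))

/-- the generators -/
noncomputable def gen (t : (ℕ →₀ ℕ) × Finset ℕ × ℕ) : H →L[ℂ] H :=
  Hop (fun q => b (t.1 q, false)) t.2.1 (om t.2.2) t.2.2

/-- the acting group -/
noncomputable def Gm : Subgroup (unitary (H →L[ℂ] H)) :=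
  Subgroup.closure {u | u.1 ∈ range (gen b)}

instance : Countable (Gm b) := by
  haveI : Countable {u : unitary (H →L[ℂ] H) | u.1 ∈ range (gen b)} :=
    ((countable_range (gen b)).preimage Subtype.val_injective).to_subtype
  rw [Gm, FreeGroup.closure_eq_range]
  exact (countable_range _).to_subtype

theorem cmul {g h : H →L[ℂ] H} (hg : IsCompactOperator (g - 1 :))
    (hh : IsCompactOperator (h - 1 :)) : IsCompactOperator (g * h - 1 :) := by
  rw [show g * h - 1 = g * (h - 1) + (g - 1) by rw [mul_sub, mul_one, sub_add_sub_cancel]]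
  exact (hh.clm_comp g).add hg

theorem Gm_cpt (g : Gm b) : IsCompactOperator (g.1.1 - 1 :) := by
  obtain ⟨g, hg⟩ := g
  induction hg using Subgroup.closure_induction with
  | mem u h =>
    obtain ⟨t, ht⟩ := h
    exact ht ▸ Hop_cpt _ _ _ _
  | one => simpa using isCompactOperator_zero
  | mul u v _ _ h1 h2 => exact cmul h1 h2
  | inv u _ h =>
    rw [show (u⁻¹).1 - 1 = -(star u.1 * (u.1 - 1)) by rw [mul_sub, u.2.1]; simp; rfl]
    exact (h.clm_comp (star u.1)).neg

/-- the system -/
noncomputable def sys : Sys {z : ℕ × Bool → H // Orthonormal ℂ z} (Gm b) where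
  ac z g := acT b z g.1
  ag M u v := ∀ i, i.1 < M → u.1 i = v.1 i
  far M := ⟨⟨⟨{g | ∀ i : ℕ × Bool, i.1 < M → g.1.1 (b i) = b i}, fun {g h} hg hh i hi => by
    show g.1.1 (h.1.1 _) = _
    rw [hh i hi, hg i hi]⟩, fun _ _ => rfl⟩, fun {g} hg i hi => by
      rw [← hg i hi]
      exact (DFunLike.congr_fun g.1.2.1 _).trans (hg i hi).symm⟩
  one z := Subtype.ext (funext (V_b b z))
  mul z g h := Subtype.ext (funext fun i => by
    show _ = V b (acT b z g) _
    rw [V_acT]
    rfl)
  cont g := (continuous_pi fun i => V_cont b _).subtype_mk _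
  anti h e i hi := e i (hi.trans_le h)
  symm e i hi := (e i hi).symm
  trans e f i hi := (e i hi).trans (f i hi)
  fanti _ _ h _ e i hi := e i (hi.trans_le h)
  far_ag z h i hi := (congrArg _ (h i hi)).trans (V_b b z i)
  cyl z U hU := by
    obtain ⟨T, hT, h1⟩ := (mem_nhds_subtype _ _ _).1 hU
    rw [nhds_pi, Filter.mem_pi] at hT
    obtain ⟨I, i1, t, t1, t2⟩ := hT
    obtain ⟨M, hM⟩ := (i1.image Prod.fst).bddAbove
    refine ⟨M + 1, (continuous_subtype_val.continuousAt.eventually
      (set_pi_mem_nhds i1 fun i _ => t1 i)).mono fun u hu v e => h1 (t2 fun i hi => ?_)⟩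
    rw [e i (Nat.lt_succ_of_le (hM (mem_image_of_mem _ hi)))]
    exact hu i hi
  lim u h := by
    have e : ∀ i : ℕ × Bool, ∀ n, i.1 < n → (u n).1 i = (u (i.1 + 1)).1 i := fun i n hn => by
      induction n, hn using Nat.le_induction with
      | base => rfl
      | succ n hn ih => rw [h n i hn, ih]
    refine ⟨⟨fun i => (u (i.1 + 1)).1 i, fun i => (u _).2.1 i, fun i j hij => ?_⟩,
      fun n i hi => (e i n hi).symm⟩
    beta_reduce
    rw [← e i (i.1 + j.1 + 1) (by omega), ← e j (i.1 + j.1 + 1) (by omega)]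
    exact (u _).2.2 hij

theorem V_ac (z) (g : Gm b) : V b ((sys b).ac z g) = V b z * g.1.1 := V_acT b z g.1

/-- the flip -/
noncomputable def sg : H →L[ℂ] H := V b ⟨fun i => b (i.1, !i.2), b.orthonormal.comp _
  fun i j h => Prod.ext (by simpa using congrArg Prod.fst h) (by simpa using congrArg Prod.snd h)⟩

theorem sg_b (i : ℕ × Bool) : sg b (b i) = b (i.1, !i.2) := V_b b _ i

theorem sg_sg : sg b * sg b = 1 := bext b fun i => by simp [sg_b]

theorem sg_star : star (sg b) = sg b := by
  rw [← mul_one (star _), ← sg_sg b, ← mul_assoc, show star (sg b) * sg b = 1 from V_iso b _,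
    one_mul]

/-- the projection -/
noncomputable def PP : H →L[ℂ] H := (1 / 2 : ℂ) • (1 + sg b)

theorem proj (z) : IsStarProjection (V b z * PP b * star (V b z)) := by
  have h1 : PP b * PP b = PP b := by
    simp only [PP, smul_mul_smul_comm, add_mul, mul_add, sg_sg, one_mul, mul_one]
    module
  have h2 : star (PP b) = PP b := by simp [PP, sg_star]
  refine ⟨?_, ?_⟩
  · show _ * _ = _
    simp only [← mul_assoc]
    rw [mul_assoc _ (star _), V_iso, mul_one, mul_assoc _ (PP b) (PP b), h1]
  · simp [IsSelfAdjoint, h2, mul_assoc]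

/-- witnesses of non-compactness -/
def Dat (g : Gm b) (m M : ℕ) : Prop := (∀ i : ℕ × Bool, M ≤ i.1 → g.1.1 (b i) = b i) ∧
  ∃ x y : H, x ≠ 0 ∧ PP b x = x ∧ PP b y = 0 ∧ g.1.1 y = x ∧
    ∀ i : ℕ × Bool, i.1 < m ∨ M ≤ i.1 → inner ℂ (b i) x = 0 ∧ inner ℂ (b i) y = 0

theorem hsum (z z') (w g : ℕ → Gm b) (h : ∀ n, w (n + 1) = w n * g n ∧
    ‖(g n).1.1 - 1‖ ≤ (1 / 2) ^ n) (hz : Tendsto (fun n => (sys b).ac z (w n)) atTop (𝓝 z')) :
    Ess (V b z' * PP b * star (V b z')) (V b z * PP b * star (V b z)) := by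
  obtain ⟨u, hu⟩ := cauchySeq_tendsto_of_complete (cauchySeq_of_le_geometric (1 / 2) 1
    (f := fun n => (w n).1.1) (by norm_num) fun n => by
      rw [one_mul, dist_comm, dist_eq_norm, (h n).1]
      refine le_of_eq_of_le ?_ (h n).2
      rw [← CStarRing.norm_coe_unitary_mul (w n).1 ((g n).1.1 - 1), mul_sub, mul_one]
      rfl)
  refine cpt (V_iso b z) (V_iso b z') (w := u) (ContinuousLinearMap.ext fun x => ?_)
    (isCompactOperator_of_tendsto (hu.sub_const 1) (Eventually.of_forall fun n => Gm_cpt b _))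
  refine tendsto_nhds_unique (((V_cont b x).tendsto _).comp hz) ?_
  simp only [comp_def, V_ac]
  exact (((ContinuousLinearMap.apply ℂ H x).continuous.tendsto _).comp (hu.const_mul (V b z)))

theorem hdat (z z') (w g : ℕ → Gm b) (m M : ℕ → ℕ) (h0 : w 0 = 1) (hm : Monotone m)
    (h : ∀ n, w (n + 1) = w n * g n ∧ g n ∈ (sys b).far (m n) ∧ M n ≤ m (n + 1) ∧
      Dat b (g n) (m n) (M n)) (hz : Tendsto (fun n => (sys b).ac z (w n)) atTop (𝓝 z')) :
    ¬ Ess (V b z' * PP b * star (V b z')) (V b z * PP b * star (V b z)) := fun hc => by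
  choose x y x0 x1 y1 xy hs using fun n => (h n).2.2.2.2
  have e : ∀ n u, (w (n + 1)).1.1 u = (w n).1.1 ((g n).1.1 u) := fun n u => by
    rw [(h n).1]
    rfl
  have a1 : ∀ n j, j ≤ n → (w j).1.1 (x n) = x n := fun n j hj => by
    induction j with
    | zero => rw [h0]; rfl
    | succ j ih =>
      rw [e, fix b fun i => (lt_or_ge i.1 (m n)).imp (fun hi => (hs n i (Or.inl hi)).1) fun hi =>
        (h j).2.2.2.1 i ((h j).2.2.1.trans ((hm hj).trans hi)), ih (by omega)]
  have a2 : ∀ n k, n + 1 ≤ k → (w k).1.1 (y n) = x n := fun n k hk => by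
    induction k, hk using Nat.le_induction with
    | base => rw [e, xy, a1 n n le_rfl]
    | succ k hk ih =>
      rw [e, fix b fun i => (le_or_gt (M n) i.1).imp (fun hi => (hs n i (Or.inr hi)).2) fun hi =>
        (h k).2.1 i (hi.trans_le ((h n).2.2.1.trans (hm hk))), ih]
  have a3 : ∀ n, V b z' (y n) = V b z (x n) := fun n =>
    tendsto_nhds_unique (((V_cont b _).tendsto _).comp hz) (tendsto_const_nhds.congr'
      (eventually_atTop.2 ⟨n + 1, fun k hk => by simp [V_ac, a2 n k hk]⟩))
  have a4 : ∀ z u, star (V b z) (V b z u) = u := fun z u => DFunLike.congr_fun (V_iso b z) u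
  haveI := ContinuousLinearMap.finite_dimensional_eigenspace hc (-1) (by simp)
  refine Module.Finite.not_linearIndependent_of_infinite (R := ℂ)
    (fun n => (⟨V b z (x n), Module.End.mem_eigenspace_iff.2 ?_⟩ : Module.End.eigenspace
      (V b z' * PP b * star (V b z') - V b z * PP b * star (V b z)).toLinearMap (-1))) ?_
  · show V b z' (PP b (star (V b z') _)) - V b z (PP b (star (V b z) _)) = _
    rw [a4, x1, ← a3, a4, y1]
    simp
  · have o : ∀ n k, n < k → inner ℂ (x n) (x k) = 0 := fun n k hk => by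
      rw [← b.tsum_inner_mul_inner]
      convert tsum_zero with i
      rcases le_or_gt (M n) i.1 with hi | hi
      · rw [inner_eq_zero_symm.1 (hs n i (Or.inr hi)).1, zero_mul]
      · rw [(hs k i (Or.inl (hi.trans_le ((h n).2.2.1.trans (hm hk))))).1, mul_zero]
    refine LinearIndependent.of_comp (Submodule.subtype _)
      (linearIndependent_of_ne_zero_of_inner_eq_zero (v := fun n => V b z (x n))
        (fun n e => x0 n (by rw [← a4 z (x n), e, map_zero])) fun n k hk => ?_)
    beta_reduce
    rw [iso_inner (V_iso b z)]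
    rcases hk.lt_or_gt with hk | hk
    · exact o n k hk
    · exact inner_eq_zero_symm.1 (o k n hk)

open Classical in
/-- group elements from operators -/
noncomputable def mkG (T : H →L[ℂ] H) : Gm b :=
  if h : T ∈ unitary (H →L[ℂ] H) ∧ T ∈ range (gen b) then
    ⟨⟨T, h.1⟩, Subgroup.subset_closure h.2⟩ else 1

theorem vo {p : ℕ → ℕ} (hp : StrictMono p) (c : Bool) : Orthonormal ℂ fun q => b (p q, c) :=
  b.orthonormal.comp _ fun _ _ h => hp.injective (congrArg Prod.fst h)

theorem om1 (n : ℕ) : ‖om n‖ = 1 := Complex.norm_exp_I_mul_ofReal _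

theorem mkG_val {p : ℕ → ℕ} (hp : StrictMono p) (A : Finset ℕ) (n : ℕ) :
    (mkG b (Hop (fun q => b (p q, false)) A (om n) n)).1.1 =
      Hop (fun q => b (p q, false)) A (om n) n := by
  rw [mkG, dif_pos ⟨Hop_unit (vo b hp _) A (om1 n) n,
    (Finsupp.indicator A fun i _ => p i, A, n), Hop_congr (fun a ha => by
      simp [Finsupp.indicator_of_mem ha]) _ _⟩]

theorem mat (η : ℝ) (hη : η > 0) : ∃ (N : ℕ) (h κ : ℕ → (ℕ → ℕ) → Gm b), (∀ p, h 0 p = 1) ∧
      (∀ s ≤ N, ∀ p p', (∀ i < s, p i = p' i) → h s p = h s p') ∧ ∀ p, StrictMono p →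
      (∀ m, (∀ i, m ≤ p i) → (∀ s, h s p ∈ (sys b).far m) ∧ ∃ M, Dat b (h N p) m M) ∧
      (∀ s M, (∀ i, s ≤ i → M ≤ p i) → κ s p ∈ (sys b).far M) ∧ ∀ s < N,
        ‖((h s p)⁻¹ * h (s + 1) p).1.1 - 1‖ ≤ η ∧
        ‖((h (s + 1) p * κ (s + 1) p)⁻¹ * h N p).1.1 - 1‖ ≤ η := by
  classical
  obtain ⟨n, hn⟩ := exists_nat_gt (48 / η ^ 2)
  have n0 : (0 : ℝ) < n := lt_trans (by positivity) hn
  have hb : 3 * n * ‖om n - 1‖ ^ 2 ≤ η ^ 2 := by
    have h1 : ‖om n - 1‖ ≤ 4 / n := Real.norm_exp_I_mul_ofReal_sub_one_le.trans (by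
      rw [Real.norm_of_nonneg (by positivity)]
      gcongr
      exact Real.pi_le_four)
    rw [div_lt_iff₀ (by positivity)] at hn
    calc _ ≤ 3 * n * (4 / n : ℝ) ^ 2 := by gcongr
      _ = 48 / n := by field_simp; norm_num
      _ ≤ _ := by rw [div_le_iff₀ n0]; linarith
  have nr : ∀ u v : Gm b, ‖(u⁻¹ * v).1.1 - 1‖ = ‖v.1.1 - u.1.1‖ := fun u v => by
    rw [← CStarRing.norm_coe_unitary_mul u.1, mul_sub, mul_one]
    congr 2
    exact congrArg (fun g : Gm b => g.1.1) (mul_inv_cancel_left u v)
  have bb : ∀ i j, i ≠ j → inner ℂ (b i) (b j) = 0 := fun i j h => b.orthonormal.2 h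
  refine ⟨4 ^ n, fun s p => mkG b (Hop (fun q => b (p q, false)) (.range s) (om n) n),
    fun s p => mkG b (Hop (fun q => b (p q, false)) (.Ico s (4 ^ n)) (om n) n), fun p => ?_,
    fun s _ p p' h => congrArg _ (Hop_congr (fun a ha => by rw [h a (Finset.mem_range.1 ha)]) _ _),
    fun p hp => ⟨fun m hm => ⟨fun s i hi => ?_, p (4 ^ n), fun i hi => ?_, ?_⟩,
      fun s M h i hi => ?_, fun s hs => ⟨?_, ?_⟩⟩⟩
  · have : Hop (fun q => b (p q, false)) (.range 0) (om n) n = 1 :=
      ContinuousLinearMap.ext fun x => Hop_fix (by simp) _ _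
    simp only [this, mkG]
    split_ifs <;> rfl
  · rw [mkG_val b hp]
    exact Hop_fix (fun a _ => bb _ _ fun e => (hm a).not_gt (by rw [← e] at hi; exact hi)) _ _
  · rw [mkG_val b hp]
    exact Hop_fix (fun a ha => bb _ _ fun e => (hp (Finset.mem_range.1 ha)).not_ge
      (by rw [← e] at hi; exact hi)) _ _
  · have s1 : ∀ c, sg b (xi (fun q => b (p q, c)) n 0) = xi (fun q => b (p q, !c)) n 0 :=
      fun c => by simp only [xi_map, comp_def, sg_b]
    have s2 : ∀ c (i : ℕ × Bool), i.1 < m ∨ p (4 ^ n) ≤ i.1 →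
        inner ℂ (b i) (xi (fun q => b (p q, c)) n 0) = 0 := fun c i hi =>
      inner_eq_zero_symm.1 (perp fun a ha => bb _ _ fun e => by
        have := hm a
        have := hp ((Nat.div_eq_zero_iff_lt (by positivity)).1 ha)
        subst e
        dsimp only at hi
        omega)
    refine ⟨xi (fun q => b (p q, false)) n 0 + xi (fun q => b (p q, true)) n 0,
      -xi (fun q => b (p q, false)) n 0 + xi (fun q => b (p q, true)) n 0, fun e => ?_, ?_, ?_, ?_,
      fun i hi => by simp [inner_add_right, s2 _ i hi]⟩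
    · have := congrArg (inner ℂ (xi (fun q => b (p q, false)) n 0)) e
      rw [inner_add_right, orth (vo b hp _), perp2 fun a a' _ _ => bb _ _ (by simp)] at this
      simp at this
    · simp only [PP, smul_apply, add_apply, map_add, s1, Bool.not_true, Bool.not_false,
        ContinuousLinearMap.one_apply]
      module
    · simp [PP, s1]
    · rw [mkG_val b hp, map_add, map_neg, Hop_eig _ fun j hj => EE_fix (vo b hp _) hj.le fun i hi =>
        Finset.mem_range.2 ((Nat.div_eq_zero_iff_lt (by positivity)).1 hi), Hop_fix fun a _ =>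
        inner_eq_zero_symm.1 (perp fun a' _ => bb _ _ (by simp)), om, ← Complex.exp_nat_mul,
        show n * (Complex.I * (Real.pi / n : ℝ)) = Real.pi * Complex.I by
          have : (n : ℂ) ≠ 0 := by exact_mod_cast n0.ne'
          push_cast
          field_simp, Complex.exp_pi_mul_I]
      simp
  · rw [mkG_val b hp]
    exact Hop_fix (fun a ha => bb _ _ fun e => (h a (Finset.mem_Ico.1 ha).1).not_gt
      (by rw [← e] at hi; exact hi)) _ _
  · rw [nr, mkG_val b hp, mkG_val b hp]
    exact Hop_step (vo b hp _) (om1 n) s n hη.le hb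
  · rw [nr]
    show ‖_ - _ * _‖ ≤ _
    simp only [mkG_val b hp]
    exact Hop_cut (vo b hp _) (om1 n) hs n hη.le hb

theorem q1 (b : HilbertBasis (ℕ × Bool) ℂ H) : ¬ Red IsStarProjection (Ess (H := H)) C0 := by
  rintro ⟨f, f1, f2⟩
  letI : MeasurableSpace {z : ℕ × Bool → H // Orthonormal ℂ z} := borel _
  haveI : BorelSpace {z : ℕ × Bool → H // Orthonormal ℂ z} := ⟨rfl⟩
  haveI : IsCompletelyMetrizableSpace {z : ℕ × Bool → H // Orthonormal ℂ z} := by
    classical
    refine (IsClosed.isClosedEmbedding_subtypeVal (s := {z : ℕ × Bool → H | Orthonormal ℂ z})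
      ?_).IsCompletelyMetrizableSpace
    simp only [orthonormal_iff_ite, ofPred_forall]
    exact isClosed_iInter fun i => isClosed_iInter fun j =>
      isClosed_eq ((continuous_apply i).inner (continuous_apply j)) continuous_const
  haveI : Nonempty {z : ℕ × Bool → H // Orthonormal ℂ z} := ⟨⟨b, b.orthonormal⟩⟩
  obtain ⟨G, g1, g2, g3⟩ := (sys b).generic (F := fun z => f ⟨_, proj b z⟩)
    (f1.comp (measurable_comap_iff.2 (meas b _)))
  exact (sys b).core g1 g2 g3 (fun z g => (f2 _ _).1
    (cpt (V_iso b _) (V_iso b _) (V_ac b z g) (Gm_cpt b g))) (fun g => ‖g.1.1 - 1‖)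
    (fun z z' w g _ h hz => (f2 _ _).1 (hsum b z z' w g h hz)) (Dat b)
    (fun z z' w g m M h0 hm h hz e => hdat b z z' w g m M h0 hm h hz ((f2 _ _).2 e)) (mat b)

end Pool.Agent.H.MP_ec05f5_lc
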