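import Mathlib
import Pool.Agent.H.MP_ec05f5_lc.B

namespace Pool.Agent.H.MP_ec05f5_lc

open Set Function Filter Topology TopologicalSpace

/-- finite sums of fourth powers -/
def q (t : Finset ℕ) (x y : ℕ → ℝ) : ℝ := ∑ k ∈ t, (x k - y k) ^ 4

theorem q_tend {α : Type} {l : Filter α} {f g : α → ℕ → ℝ} {x y : ℕ → ℝ} (t : Finset ℕ)
    (hf : Tendsto f l (𝓝 x)) (hg : Tendsto g l (𝓝 y)) :
    Tendsto (fun a => q t (f a) (g a)) l (𝓝 (q t x y)) :=
  tendsto_finset_sum _ fun k _ => ((tendsto_pi_nhds.1 hf k).sub (tendsto_pi_nhds.1 hg k)).pow 4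

theorem q_con {α : Type} [TopologicalSpace α] {s : Set α} {f g : α → ℕ → ℝ} (t : Finset ℕ)
    (hf : ContinuousOn f s) (hg : ContinuousOn g s) :
    ContinuousOn (fun a => q t (f a) (g a)) s := fun a ha => q_tend t (hf a ha) (hg a ha)

theorem q_mono {s t : Finset ℕ} (h : s ⊆ t) (x y : ℕ → ℝ) : q s x y ≤ q t x y :=
  Finset.sum_le_sum_of_subset_of_nonneg h fun _ _ _ => by positivity

theorem q_split (t : Finset ℕ) (K : ℕ) (x y : ℕ → ℝ) :
    q t x y ≤ q (.range K) x y + q (t \ .range K) x y := by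
  rw [q, q, q, ← Finset.sum_union Finset.disjoint_sdiff]
  exact q_mono (by simp) x y

theorem q_tri {δ C : ℝ} (h : ∀ a b : ℝ, (a + b) ^ 4 ≤ δ * a ^ 4 + C * b ^ 4) (t : Finset ℕ)
    (x y z : ℕ → ℝ) : q t x z ≤ δ * q t x y + C * q t y z := by
  simp only [q, Finset.mul_sum, ← Finset.sum_add_distrib]
  exact Finset.sum_le_sum fun k _ => by simpa using h (x k - y k) (y k - z k)

theorem q_symm (t : Finset ℕ) (x y : ℕ → ℝ) : q t x y = q t y x :=
  Finset.sum_congr rfl fun _ _ => by ring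

theorem e8 (a b : ℝ) : (a + b) ^ 4 ≤ 8 * a ^ 4 + 8 * b ^ 4 := by
  nlinarith [sq_nonneg (a - b), sq_nonneg (a + b), sq_nonneg (a ^ 2 - b ^ 2),
    sq_nonneg ((a - b) ^ 2), mul_nonneg (sq_nonneg (a - b)) (sq_nonneg (a + b))]

theorem yng {δ : ℝ} (hδ : 0 < δ) : ∃ C > 0, ∀ a b : ℝ, (a + b) ^ 4 ≤ (1 + δ) * a ^ 4 + C * b ^ 4 := by
  obtain ⟨t, t0, t1, t2⟩ : ∃ t : ℝ, 0 < t ∧ t ≤ 1 ∧ 15 * t ≤ δ :=
    ⟨min 1 (δ / 15), by positivity, min_le_left _ _, by linarith [min_le_right 1 (δ / 15)]⟩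
  have t3 : (1 + t) ^ 4 ≤ 1 + δ := by nlinarith [mul_nonneg t0.le t0.le, pow_le_one₀ (n := 2) t0.le t1, pow_le_one₀ (n := 3) t0.le t1]
  refine ⟨(1 + 1 / t) ^ 4, by positivity, fun a b => ?_⟩
  have e : ∀ x : ℝ, x ^ 4 = |x| ^ 4 := fun x => (Even.pow_abs (by decide) x).symm
  rw [e, e a, e b]
  have h := abs_add_le a b
  rcases le_total |b| (t * |a|) with h1 | h1
  · have : |a + b| ^ 4 ≤ ((1 + t) * |a|) ^ 4 := by gcongr; linarith
    rw [mul_pow] at this
    have := mul_le_mul_of_nonneg_right t3 (pow_nonneg (abs_nonneg a) 4)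
    have : 0 ≤ (1 + 1 / t) ^ 4 * |b| ^ 4 := by positivity
    linarith
  · have : |a + b| ^ 4 ≤ ((1 + 1 / t) * |b|) ^ 4 := by
      gcongr
      have : |a| ≤ 1 / t * |b| := by rw [one_div, le_inv_mul_iff₀ t0]; exact h1
      linarith
    rw [mul_pow] at this
    have : 0 ≤ (1 + δ) * |a| ^ 4 := by positivity
    linarith

theorem L4_iff {x y : ℕ → ℝ} : L4 x y ↔ Summable fun k => (x k - y k) ^ 4 := by
  simp only [L4, Even.pow_abs (show Even 4 by decide)]

theorem L4_of {x y : ℕ → ℝ} {c : ℝ} (h : ∀ t, q t x y ≤ c) : L4 x y :=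
  L4_iff.2 (summable_of_sum_le (fun _ => by positivity) h)

theorem L4_tail {x y : ℕ → ℝ} (h : L4 x y) {ε : ℝ} (hε : 0 < ε) :
    ∃ K, ∀ t, Disjoint t (.range K) → q t x y ≤ ε := by
  obtain ⟨s, hs⟩ := (L4_iff.1 h).vanishing (Iic_mem_nhds hε)
  obtain ⟨K, hK⟩ := s.exists_nat_subset_range
  exact ⟨K, fun t ht => hs t (ht.mono_right hK)⟩

/-- iterated ultrafilters -/
noncomputable def U : ℕ → Filter (ℕ → ℕ)
  | 0 => pure 0
  | k + 1 => (hyperfilter ℕ : Filter ℕ).bind fun a => map (fun x j => Nat.casesOn j a x) (U k)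

instance U_ne (k : ℕ) : (U k).NeBot := by
  induction k with
  | zero => exact pure_neBot
  | succ k ih =>
    refine ⟨fun h => ?_⟩
    rw [← eventually_false_iff_eq_bot, U, eventually_bind] at h
    obtain ⟨a, ha⟩ := h.exists
    exact (eventually_map.1 ha).exists.elim fun _ => id

theorem U_ne' (k : ℕ) (y : ℕ → ℕ) : ∀ᶠ x in U k, ∀ j < k, x j ≠ y j := by
  induction k generalizing y with
  | zero => simp
  | succ k ih =>
    rw [U, eventually_bind]
    filter_upwards [(finite_singleton (y 0)).compl_mem_hyperfilter] with a ha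
    refine eventually_map.2 ((ih fun j => y (j + 1)).mono fun x hx j hj => ?_)
    cases j with
    | zero => exact ha
    | succ j => exact hx j (by omega)

theorem KR {L : ℝ} (k : ℕ) (f : (ℕ → ℕ) → ℕ → ℝ)
    (h : ∀ x y j, (∀ i ≠ j, x i = y i) → ∀ t, q t (f x) (f y) ≤ L) :
    ∃ g, Tendsto f (U k) (𝓝 g) ∧ ∀ ε > 0, ∀ᶠ x in U k, ∀ t, q t (f x) g ≤ k * L + ε := by
  induction k generalizing f with
  | zero => exact ⟨f 0, tendsto_pure_nhds _ _, fun ε hε => by simp [U, q, hε.le]⟩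
  | succ k ih =>
    have L0 : 0 ≤ L := h 0 0 0 (fun _ _ => rfl) ∅
    choose g g1 g2 using fun a => ih (fun x => f fun j => Nat.casesOn j a x)
      fun x y j e => h _ _ (j + 1) fun i hi => by
        cases i with
        | zero => rfl
        | succ i => exact e i fun e => hi (by rw [e])
    have g3 : ∀ a a' t, q t (g a) (g a') ≤ L := fun a a' t =>
      le_of_tendsto' (q_tend t (g1 a) (g1 a')) fun x =>
        h _ _ 0 (fun i hi => by
          cases i with
          | zero => exact absurd rfl hi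
          | succ i => rfl) t
    obtain ⟨u, -, hu⟩ := (isCompact_univ_pi fun i => isCompact_Icc (a := g 0 i - (L + 1))
      (b := g 0 i + (L + 1))).ultrafilter_le_nhds ((hyperfilter ℕ).map g)
      (le_principal_iff.2 (Eventually.of_forall (p := fun a => g a ∈ _) fun a i _ => by
        have := g3 a 0 {i}
        rw [q, Finset.sum_singleton] at this
        have h2 := sq_nonneg ((g a i - g 0 i) ^ 2 - 1)
        constructor <;> nlinarith [sq_nonneg (g a i - g 0 i - 1), sq_nonneg (g a i - g 0 i + 1)]))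
    have g4 : ∀ a t, q t (g a) u ≤ L := fun a t =>
      le_of_tendsto' (q_tend (g := g) t tendsto_const_nhds hu) fun x => g3 a x t
    refine ⟨u, (nhds_basis_opens u).tendsto_right_iff.2 fun W hW => ?_, fun ε hε => ?_⟩
    · rw [U, eventually_bind]
      exact (show ∀ᶠ a in hyperfilter ℕ, g a ∈ W from hu (hW.2.mem_nhds hW.1)).mono fun a ha =>
        eventually_map.2 (g1 a (hW.2.mem_nhds ha))
    · rw [U, eventually_bind]
      refine Eventually.of_forall fun a => eventually_map.2 ?_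
      obtain ⟨C, C0, hC⟩ := yng (show 0 < ε / 4 / (k * L + ε) by positivity)
      obtain ⟨K, hK⟩ := L4_tail (L4_of (g4 a)) (show 0 < ε / 4 / C by positivity)
      filter_upwards [g2 a (ε / 4) (by positivity), (q_tend (.range K) (g1 a)
        (tendsto_const_nhds (x := u))).eventually
        (gt_mem_nhds ((g4 a _).trans_lt (lt_add_of_pos_right L (show 0 < ε / 4 by positivity))))]
        with x h1 h2 t
      have a1 := q_tri hC (t \ .range K) (f fun j => Nat.casesOn j a x) (g a) u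
      have a2 := mul_le_mul_of_nonneg_left (hK _ (Finset.sdiff_disjoint (s := .range K) (t := t))) C0.le
      have a3 := mul_le_mul_of_nonneg_left ((h1 (t \ .range K)).trans (show _ ≤ k * L + ε by linarith))
        (show 0 ≤ ε / 4 / (k * L + ε) by positivity)
      rw [mul_div_cancel₀ _ C0.ne'] at a2
      rw [div_mul_cancel₀ _ (by positivity)] at a3
      have := h1 (t \ .range K)
      refine (q_split t K _ _).trans ?_
      push_cast
      nlinarith

variable {Z Γ : Type} [TopologicalSpace Z] [Group Γ] (S : Sys Z Γ) [IsCompletelyMetrizableSpace Z]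
  {G : Set Z} {F : Z → ℕ → ℝ}

omit [IsCompletelyMetrizableSpace Z] in
theorem Sys.cq (hF : ContinuousOn F G) (inv : ∀ z ∈ G, ∀ g, S.ac z g ∈ G) (v w : Γ)
    (t : Finset ℕ) : ContinuousOn (fun z => q t (F (S.ac z v)) (F (S.ac z w))) G :=
  q_con t (hF.comp (S.cont v).continuousOn fun z hz => inv z hz v)
    (hF.comp (S.cont w).continuousOn fun z hz => inv z hz w)

theorem Sys.gain (hG : G ∈ residual Z) (hF : ContinuousOn F G)
    (inv : ∀ z ∈ G, ∀ g, S.ac z g ∈ G) (hΓ : ∀ z g, L4 (F (S.ac z g)) (F z)) {O : Set Z}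
    (hO : IsOpen O) (hn : O.Nonempty) (w : Γ) (K₀ m : ℕ) {β : ℝ} (hβ : 0 < β) (P : Γ → Prop)
    (h : ∀ O' m', IsOpen O' → O'.Nonempty → O' ⊆ (S.ac · w) '' O → ∃ g ∈ S.far m', P g ∧
      ∃ u ∈ O', u ∈ G ∧ ∃ t, β < q t (F (S.ac u g)) (F u)) :
    ∃ g ∈ S.far m, P g ∧ ∃ z ∈ O, z ∈ G ∧ ∃ t, Disjoint t (.range K₀) ∧
      β / 16 < q t (F (S.ac z (w * g))) (F z) := by
  obtain ⟨K, O₁, b1, b2, b3, b4⟩ := baire hG hO hn
    (φ := fun K t z => q (t \ .range (K₀ + K)) (F (S.ac z w)) (F (S.ac z 1)) - β / 100)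
    (fun K t => (S.cq hF inv _ _ _).sub continuousOn_const) (Eventually.of_forall fun z _ => by
      obtain ⟨K, hK⟩ := L4_tail (hΓ z w) (show 0 < β / 100 by positivity)
      exact ⟨K, fun t => by
        simpa [S.one] using hK _ (Finset.sdiff_disjoint.mono_right (by simp))⟩)
  obtain ⟨z, z1, z2⟩ := (dense_of_mem_residual hG).inter_open_nonempty _ b1 b2
  obtain ⟨O₂, M, c1, c2, c3, c4, c5⟩ := S.stab b1
    (Ψ := fun p => β / 100 - q (.range (K₀ + K)) (F p.1) (F (S.ac p.2 w)))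
    (continuousOn_const.sub (q_con _
      (hF.comp continuousOn_fst fun _ h => h.1) ((hF.comp (S.cont w).continuousOn
        fun z hz => inv z hz w).comp continuousOn_snd fun _ h => h.2)))
    z1 z2 w (inv _ z2 _) (by simpa [q] using hβ) m
  obtain ⟨g, g1, g2, _, ⟨z, z1, rfl⟩, z2, t, ht⟩ := h _ M (S.opn w _ c1) (c2.image _)
    (image_mono (c3.trans b3))
  have z3 : z ∈ G := by simpa [← S.mul, S.one] using inv _ z2 w⁻¹
  refine ⟨g, S.fanti c4 g1, g2, z, b3 (c3 z1), z3, t \ .range (K₀ + K),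
    Finset.sdiff_disjoint.mono_right (by simp), ?_⟩
  have a1 := c5 z z1 z3 _ (inv _ z2 g) (S.far_ag _ g1)
  have a2 := b4 z (c3 z1) z3 t
  have a3 := ht.trans_le (q_split t (K₀ + K) _ _)
  have a4 := q_tri e8 (t \ .range (K₀ + K)) (F (S.ac (S.ac z w) g)) (F z) (F (S.ac z w))
  rw [S.one, q_symm] at a2
  rw [S.mul]
  dsimp only at a1 a3
  linarith

omit [IsCompletelyMetrizableSpace Z] in
theorem Sys.stq (hF : ContinuousOn F G) (inv : ∀ z ∈ G, ∀ g, S.ac z g ∈ G) {O : Set Z}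
    (hO : IsOpen O) {z : Z} (h0 : z ∈ O) (h1 : z ∈ G) {w : Γ} {t : Finset ℕ} {c : ℝ}
    (h : c < q t (F (S.ac z w)) (F z)) (m : ℕ) : ∃ O' M, IsOpen O' ∧ O'.Nonempty ∧ O' ⊆ O ∧
      m ≤ M ∧ ∀ z ∈ O', z ∈ G → ∀ u ∈ G, S.ag M u (S.ac z w) → c < q t (F u) (F z) := by
  simpa only [sub_pos] using S.stab hO (Ψ := fun p => q t (F p.1) (F p.2) - c)
    ((q_con _ (hF.comp continuousOn_fst fun _ h => h.1)
      (hF.comp continuousOn_snd fun _ h => h.2)).sub continuousOn_const)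
    h0 h1 w (inv _ h1 _) (sub_pos.2 h) m

end Pool.Agent.H.MP_ec05f5_lc
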