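import Mathlib
import Pool.Agent.H.MP_ec05f5_lc.E
import Pool.Agent.H.MP_ec05f5_lc.D

namespace Pool.Agent.H.MP_ec05f5_lc

open Set Function Filter Topology TopologicalSpace

/-- block sizes -/
def kk (n : ℕ) : ℕ := (Nat.unpair n).1 + 1

/-- squared normalised Hamming weight of a block -/
noncomputable def ρ (g : ℕ × ℕ → ℤ) (n : ℕ) : ℝ :=
  (((Finset.range (kk n)).filter fun j => g (n, j) ≠ 0).card / kk n) ^ 2

/-- finitely supported translations -/
abbrev GG := Multiplicative (ℕ × ℕ →₀ ℤ)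

instance : Countable GG := inferInstanceAs (Countable (ℕ × ℕ →₀ ℤ))

/-- the translation system -/
noncomputable def sy : Sys (ℕ × ℕ → ℤ) GG where
  ac z g := z + g.toAdd
  ag M u v := ∀ i, i.1 < M → u i = v i
  far M := ⟨⟨⟨{g | ∀ i : ℕ × ℕ, i.1 < M → g.toAdd i = 0}, fun {g h} hg hh i hi => by
    simp [hg i hi, hh i hi]⟩, fun _ _ => rfl⟩, fun {g} hg i hi => by simp [hg i hi]⟩
  one z := by simp
  mul z g h := by simp [add_assoc]
  cont g := continuous_id.add continuous_const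
  anti h e i hi := e i (hi.trans_le h)
  symm e i hi := (e i hi).symm
  trans e f i hi := (e i hi).trans (f i hi)
  fanti _ _ h _ e i hi := e i (hi.trans_le h)
  far_ag z h i hi := by simp [h i hi]
  cyl z U hT := by
    rw [nhds_pi, Filter.mem_pi] at hT
    obtain ⟨I, i1, t, t1, t2⟩ := hT
    obtain ⟨M, hM⟩ := (i1.image Prod.fst).bddAbove
    refine ⟨M + 1, mem_of_superset (set_pi_mem_nhds i1 fun i _ => t1 i)
      fun u hu v e => t2 fun i hi => ?_⟩
    rw [e i (Nat.lt_succ_of_le (hM (mem_image_of_mem _ hi)))]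
    exact hu i hi
  lim u h := ⟨fun i => u (i.1 + 1) i, fun n i hn => by
    induction n, hn using Nat.le_induction with
    | base => rfl
    | succ n hn ih => rw [h n i hn, ← ih]⟩

/-- supported below -/
def lo (g : GG) (M : ℕ) : Prop := ∀ i : ℕ × ℕ, M ≤ i.1 → g.toAdd i = 0

/-- total weight -/
def NN (g : ℕ × ℕ → ℤ) (η : ℝ) : Prop := ∀ L, ∑ n ∈ .range L, ρ g n ≤ η

theorem lo_ex (g : GG) (m : ℕ) : ∃ M, m ≤ M ∧ lo g M := by
  obtain ⟨M, hM⟩ := (g.toAdd.support.image Prod.fst).exists_nat_subset_range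
  exact ⟨max m M, le_max_left _ _, fun i hi => by_contra fun h => by
    have := hM (Finset.mem_image_of_mem _ (Finsupp.mem_support_iff.2 h))
    simp at this hi
    omega⟩

theorem ρ_congr {g h : ℕ × ℕ → ℤ} {n : ℕ} (e : ∀ j, g (n, j) = h (n, j)) : ρ g n = ρ h n := by
  simp only [ρ, e]

theorem ρ_zero {g : ℕ × ℕ → ℤ} {n : ℕ} (e : ∀ j, g (n, j) = 0) : ρ g n = 0 := by simp [ρ, e]

theorem ρ_add {w g : GG} {m : ℕ} (hw : lo w m) (hg : g ∈ sy.far m) (n : ℕ) :
    ρ (w * g).toAdd n = ρ w.toAdd n + ρ g.toAdd n := by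
  rcases lt_or_ge n m with h | h
  · rw [ρ_zero fun j => hg (n, j) h, add_zero]
    exact ρ_congr fun j => by simp [hg (n, j) h]
  · rw [ρ_zero fun j => hw (n, j) h, zero_add]
    exact ρ_congr fun j => by simp [hw (n, j) h]

theorem NN_add {w g : GG} {m : ℕ} (hw : lo w m) (hg : g ∈ sy.far m) {a b : ℝ}
    (ha : NN w.toAdd a) (hb : NN g.toAdd b) : NN (w * g).toAdd (a + b) := fun L => by
  simp only [ρ_add hw hg, Finset.sum_add_distrib]
  exact add_le_add (ha L) (hb L)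

theorem lo_mul {w g : GG} {m M : ℕ} (hw : lo w m) (h : m ≤ M) (hg : lo g M) : lo (w * g) M :=
  fun i hi => by simp [hw i (h.trans hi), hg i hi]

theorem blk {w g : ℕ → GG} {m M : ℕ → ℕ} (h0 : w 0 = 1) (hm : Monotone m)
    (h : ∀ n, w (n + 1) = w n * g n ∧ M n ≤ m (n + 1) ∧ lo (g n) (M n)) (n : ℕ) :
    lo (w n) (m n) := by
  induction n with
  | zero => intro i _; simp [h0]
  | succ n ih =>
    rw [(h n).1]
    exact lo_mul ih (hm n.le_succ) fun i hi => (h n).2.2 i ((h n).2.1.trans hi)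

theorem ρ_ag {z z' : ℕ × ℕ → ℤ} {w : GG} {m n : ℕ} (h : sy.ag m z' (sy.ac z w)) (hn : n < m) :
    ρ (z' - z) n = ρ w.toAdd n := ρ_congr fun j => by simp [h (n, j) hn, sy]

variable {G : Set (ℕ × ℕ → ℤ)} {F : (ℕ × ℕ → ℤ) → ℕ → ℝ}

theorem core2 (hG : G ∈ residual _) (hF : ContinuousOn F G) (inv : ∀ z ∈ G, ∀ g, sy.ac z g ∈ G)
    (hE : ∀ u v, Summable (ρ (u - v)) ↔ L4 (F u) (F v)) : False := by
  have hΓ : ∀ z g, L4 (F (sy.ac z g)) (F z) := fun z g => (hE _ _).1 (by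
    obtain ⟨M, -, hM⟩ := lo_ex g 0
    exact summable_of_ne_finset_zero (s := .range M) fun n hn => ρ_zero fun j => by
      simpa [sy] using hM (n, j) (by simpa using hn))
  have low : ∃ c > 0, ∃ m O, IsOpen O ∧ O.Nonempty ∧ ∀ g ∈ sy.far m, (∃ n, ρ g.toAdd n = 1) →
      ∀ O', IsOpen O' → O'.Nonempty → O' ⊆ O →
        ∃ z ∈ O', z ∈ G ∧ ∃ t, c < q t (F (sy.ac z g)) (F z) := by
    by_contra hc
    push Not at hc
    choose C C0 hC using fun n : ℕ => yng (show (0 : ℝ) < (1 / 2) ^ n / 4 by positivity)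
    obtain ⟨w, g, m, M, O, z, z', h1, h0, h2, h3, h4, h5⟩ := sy.fusion hG isOpen_univ univ_nonempty
      0 (fun n w _ g O' M => n ≤ M ∧ lo g M ∧ (∃ n, ρ g.toAdd n = 1) ∧ ∀ z ∈ O', z ∈ G → ∀ t,
        q t (F (sy.ac z (w * g))) (F (sy.ac z w)) ≤ (1 / 2) ^ n / 4 / C n)
      fun n O w m a1 a2 _ _ _ => by
      obtain ⟨g, g1, g2, O', b1, ⟨u, b2⟩, b3, b4⟩ := hc ((1 / 2) ^ n / 4 / C n)
        (by have := C0 n; positivity) m _ (sy.opn w _ a1) (a2.image _)
      obtain ⟨z, z1, rfl⟩ := b3 b2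
      obtain ⟨M, m1, m2⟩ := lo_ex g n
      exact ⟨g, g1, O ∩ (sy.ac · w) ⁻¹' O', M, a1.inter (b1.preimage (sy.cont w)), ⟨z, z1, b2⟩,
        inter_subset_left, m1, m2, g2, fun z a b t => by
          rw [sy.mul]
          exact b4 _ a.2 (inv _ b _) t⟩
    have a1 : ∀ t n, q t (F z) (F (sy.ac z (w n))) ≤ 1 - (1 / 2) ^ n := fun t n => by
      induction n with
      | zero => simp [h1, sy.one, q]
      | succ n ih =>
        have b1 := q_tri (hC n) t (F z) (F (sy.ac z (w n))) (F (sy.ac z (w (n + 1))))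
        have b2 := mul_le_mul_of_nonneg_left
          ((h5 n).2.2.2.1.2.2.2 z (h5 n).2.2.2.2.1 h2 t) (C0 n).le
        rw [mul_div_cancel₀ _ (C0 n).ne', ← (h5 n).1, q_symm] at b2
        have : (0 : ℝ) < (1 / 2) ^ n := by positivity
        rw [pow_succ]
        nlinarith
    have a2 := ((hE z' z).2 (L4_of (c := 1) fun t => by
      rw [q_symm]
      exact le_of_tendsto' (q_tend t tendsto_const_nhds ((hF z' h3).tendsto.comp
        (tendsto_nhdsWithin_iff.2 ⟨h4, Eventually.of_forall fun n => inv _ h2 _⟩)))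
        fun n => (a1 t n).trans (sub_le_self _ (by positivity)))).tendsto_atTop_zero
    obtain ⟨T, hT⟩ := eventually_atTop.1 (a2.eventually (gt_mem_nhds one_pos))
    obtain ⟨b1, b2, b3, ⟨-, b4, ⟨n, b5⟩, -⟩, -⟩ := h5 (T + 1)
    have b6 : m (T + 1) ≤ n := not_lt.1 fun h => by simp [ρ_zero fun j => b2 (n, j) h] at b5
    have b7 : n < M (T + 1) := not_le.1 fun h => by simp [ρ_zero fun j => b4 (n, j) h] at b5
    have b8 := blk h1 h0 (fun n => ⟨(h5 n).1, (h5 n).2.2.1, (h5 n).2.2.2.1.2.1⟩) (T + 1)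
    have := hT n (((h5 T).2.2.2.1.1.trans (h5 T).2.2.1).trans b6)
    rw [ρ_ag (h5 (T + 2)).2.2.2.2.2 (b7.trans_le b3), b1, ρ_add b8 b2, b5,
      ρ_zero fun j => b8 (n, j) b6] at this
    simp at this
  obtain ⟨c, c0, m₁, O₁, o1, o2, low⟩ := low
  have small : ∃ η > 0, ∃ m O, IsOpen O ∧ O.Nonempty ∧ O ⊆ O₁ ∧ ∀ g ∈ sy.far m, NN g.toAdd η →
      ∀ z ∈ O, z ∈ G → ∀ t, q t (F (sy.ac z g)) (F z) ≤ 1 := by
    by_contra hc
    push Not at hc
    obtain ⟨O₀, m₀, p1, p2, -, p3⟩ := sy.shrink o1 o2 0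
    obtain ⟨w, g, m, M, O, z, z', h1, h0, h2, h3, h4, h5⟩ := sy.fusion hG p1 p2 m₀
      (fun n w _ g O' M => n ≤ M ∧ lo g M ∧ NN g.toAdd ((1 / 2) ^ n) ∧ ∃ t, Disjoint t (.range n) ∧
        ∀ z ∈ O', z ∈ G → ∀ u ∈ G, sy.ag M u (sy.ac z (w * g)) → 1 / 16 < q t (F u) (F z))
      fun n O w m a1 a2 a3 a4 _ => by
      obtain ⟨g, g1, g2, z, z1, z2, t, t1, t2⟩ := sy.gain hG hF inv hΓ a1 a2 w n m one_pos
        (fun g => NN g.toAdd ((1 / 2) ^ n)) fun O' m' b1 b2 b3 =>
        hc _ (by positivity) m' O' b1 b2 (b3.trans (by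
          rintro _ ⟨z, hz, rfl⟩
          exact p3 z (a3 hz) w a4))
      obtain ⟨M, m1, m2⟩ := lo_ex g n
      obtain ⟨O', M', d1, d2, d3, d4, d5⟩ := sy.stq hF inv a1 z1 z2 t2 M
      exact ⟨g, g1, O', M', d1, d2, d3, m1.trans d4, fun i hi => m2 i (d4.trans hi), g2, t, t1, d5⟩
    have b8 := blk h1 h0 fun n => ⟨(h5 n).1, (h5 n).2.2.1, (h5 n).2.2.2.1.2.1⟩
    have a1 : ∀ n, NN (w n).toAdd (2 - 2 * (1 / 2) ^ n) := fun n => by
      induction n with
      | zero => intro L; simp [h1, ρ]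
      | succ n ih =>
        rw [(h5 n).1]
        convert NN_add (b8 n) (h5 n).2.1 ih (h5 n).2.2.2.1.2.2.1 using 1
        ring
    obtain ⟨K, hK⟩ := L4_tail ((hE z' z).1 (summable_of_sum_range_le (c := 2)
      (fun n => by rw [ρ]; positivity) fun L => by
        rw [Finset.sum_congr rfl fun n hn => ρ_ag (h5 (L + 1)).2.2.2.2.2 ((Finset.mem_range.1 hn).trans_le
          ((h5 L).2.2.2.1.1.trans (h5 L).2.2.1))]
        exact (a1 _ L).trans (sub_le_self _ (by positivity)))) (show (0 : ℝ) < 1 / 16 by norm_num)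
    obtain ⟨a1, -, a2, ⟨-, -, -, t, a3, a4⟩, a5, -⟩ := h5 K
    exact (a4 z a5 h2 z' h3 (a1 ▸ sy.anti a2 (h5 (K + 1)).2.2.2.2.2)).not_ge (hK t a3)
  obtain ⟨η, η0, m₂, O₂, p1, p2, p3, small⟩ := small
  obtain ⟨O₃, m₃, r1, r2, r3, r4⟩ := sy.shrink p1 p2 m₂
  obtain ⟨k, hk⟩ := exists_nat_gt (max (2 / η) (2048 / η / c))
  have k0 : (1 : ℝ) ≤ k + 1 := by simp
  have k1 : 2 ≤ η * (k + 1) ^ 2 := by
    have := (div_lt_iff₀ η0).1 ((le_max_left _ _).trans_lt hk)
    nlinarith [mul_nonneg η0.le (sq_nonneg (k : ℝ))]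
  have up : ∃ m O, IsOpen O ∧ O.Nonempty ∧ O ⊆ O₂ ∧ ∀ g ∈ sy.far m,
      NN g.toAdd (1 / (k + 1) ^ 2) → ∀ z ∈ O, z ∈ G → ∀ t,
      q t (F (sy.ac z g)) (F z) ≤ 64 / (η * (k + 1) ^ 2) := by
    by_contra hc
    push Not at hc
    have : ∀ R : ℕ, ∃ w ∈ sy.far m₃, NN w.toAdd (R * (1 / (k + 1) ^ 2)) ∧ ∃ O t M, IsOpen O ∧
        O.Nonempty ∧ O ⊆ O₃ ∧ m₃ ≤ M ∧ lo w M ∧ ∀ z ∈ O, z ∈ G → ∀ u ∈ G, sy.ag M u (sy.ac z w) →
        R * (64 / (η * (k + 1) ^ 2) / 16) - 1 < q t (F u) (F z) := fun R => by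
      induction R with
      | zero => exact ⟨1, one_mem _, fun L => by simp [ρ], O₃, ∅, m₃, r1, r2, Subset.rfl, le_rfl,
          fun i _ => rfl, fun _ _ _ _ _ _ => by simp [q]⟩
      | succ R ih =>
        obtain ⟨w, w1, w2, O, t, M, a1, a2, a3, a4, a5, a6⟩ := ih
        obtain ⟨K, hK⟩ := t.exists_nat_subset_range
        obtain ⟨g, g1, g2, z, z1, z2, t', t1, t2⟩ := sy.gain hG hF inv hΓ a1 a2 w K M
          (show 0 < 64 / (η * (k + 1) ^ 2) by positivity)
          (fun g => NN g.toAdd (1 / (k + 1) ^ 2)) fun O' m' b1 b2 b3 =>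
          hc m' O' b1 b2 (b3.trans (by
            rintro _ ⟨z, hz, rfl⟩
            exact r4 z (a3 hz) w w1))
        obtain ⟨M', m1, m2⟩ := lo_ex g M
        obtain ⟨O', M'', d1, d2, d3, d4, d5⟩ := sy.stq hF inv a1 z1 z2 (w := w * g) (t := t' ∪ t)
          (c := (R + 1 : ℕ) * (64 / (η * (k + 1) ^ 2) / 16) - 1) (by
            have := a6 z z1 z2 _ (inv _ z2 (w * g)) (by rw [sy.mul]; exact sy.far_ag _ g1)
            rw [q, Finset.sum_union (t1.mono_right hK)]
            push_cast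
            rw [q] at this t2
            linarith) M'
        refine ⟨w * g, mul_mem w1 (sy.fanti a4 g1), ?_, O', _, M'', d1, d2, d3.trans a3,
          a4.trans (m1.trans d4), lo_mul a5 (m1.trans d4) fun i hi => m2 i (d4.trans hi), d5⟩
        convert NN_add a5 g1 w2 g2 using 1
        push_cast
        ring
    obtain ⟨w, w1, w2, O, t, M, a1, a2, a3, -, -, a6⟩ := this ⌊η * (k + 1) ^ 2⌋₊
    obtain ⟨z, z1, z2⟩ := (dense_of_mem_residual hG).inter_open_nonempty _ a1 a2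
    have b1 := a6 z z1 z2 _ (inv _ z2 w) (sy.refl _ _)
    have b2 := small w (sy.fanti r3 w1) (fun L => (w2 L).trans (by
      rw [mul_one_div, div_le_iff₀ (by positivity)]
      exact Nat.floor_le (by positivity))) z (by simpa [sy.one] using r4 z (a3 z1) 1 (one_mem _))
      z2 t
    have b3 := Nat.lt_floor_add_one (η * (k + 1) ^ 2)
    have b4 : (2 : ℝ) ≤ ⌊η * (k + 1) ^ 2⌋₊ * (64 / (η * (k + 1) ^ 2) / 16) := by
      rw [div_div, ← mul_div_assoc, le_div_iff₀ (by positivity)]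
      linarith
    linarith
  obtain ⟨m₄, O₄, s1, s2, s3, up⟩ := up
  obtain ⟨O₅, m₅, u1, u2, u3, u4⟩ := sy.shrink s1 s2 (max m₁ m₄)
  obtain ⟨⟨⟨g, g'⟩, g1, g2, g3⟩, O₆, v1, v2, v3, v4⟩ := baire hG u1 u2
    (κ := {p : GG × GG // p.1 ∈ sy.far m₅ ∧ p.2 ∈ sy.far m₅ ∧ ∃ n, ρ p.2.toAdd n = 1})
    (φ := fun p t z => q t (F (sy.ac z (p.1.1 * p.1.2))) (F (sy.ac z p.1.1)) - c)
    (fun _ _ => (sy.cq hF inv _ _ _).sub continuousOn_const) (mem_of_superset hG fun z hz z1 => by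
      obtain ⟨n, n1, n2⟩ : ∃ n, kk n = k + 1 ∧ m₅ ≤ n :=
        ⟨Nat.pair k m₅, by simp [kk], Nat.right_le_pair _ _⟩
      obtain ⟨γ, hγ⟩ : ∃ γ : (ℕ → ℕ) → GG, ∀ x i, (γ x).toAdd i =
          if i.1 = n ∧ i.2 < k + 1 then (x i.2 : ℤ) else 0 :=
        ⟨fun x => .ofAdd (Finsupp.onFinset ({n} ×ˢ .range (k + 1)) _ fun i hi =>
          Finset.mem_product.2 (by simpa using (ite_ne_right_iff.1 hi).1)), fun _ _ => rfl⟩
      have γ1 : ∀ x, γ x ∈ sy.far m₅ := fun x i hi => by rw [hγ, if_neg (by omega)]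
      obtain ⟨y, -, hy⟩ := KR (L := 64 / (η * (k + 1) ^ 2)) (k + 1) (fun x => F (sy.ac z (γ x)))
        fun x y j e t => by
        have := up ((γ y)⁻¹ * γ x) (sy.fanti (le_of_max_le_right u3)
          (mul_mem (inv_mem (γ1 y)) (γ1 x))) (fun L => by
            refine (Finset.sum_le_sum (g := fun i => if i = n then 1 / (k + 1 : ℝ) ^ 2 else 0)
              fun i _ => ?_).trans (by rw [Finset.sum_ite_eq']; split_ifs <;> first | rfl | positivity)
            split_ifs with hi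
            · rw [ρ, hi, n1, div_pow]
              push_cast
              gcongr
              refine pow_le_one₀ (by positivity) (Nat.cast_le_one.2 (Finset.card_le_one_iff_subset_singleton.2
                ⟨j, fun i hi => Finset.mem_singleton.2 (by_contra fun h => ?_)⟩))
              simp [hγ, e i h] at hi
            · exact (ρ_zero fun j => by simp [hγ, hi]).le) _ (u4 z z1 _ (γ1 y)) (inv _ hz _) t
        simpa only [← sy.mul, mul_inv_cancel_left] using this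
      obtain ⟨x, x1⟩ := (hy (c / 32) (by positivity)).exists
      obtain ⟨x', x2, x3⟩ := ((hy (c / 32) (by positivity)).and (U_ne' (k + 1) x)).exists
      refine ⟨⟨(γ x, (γ x)⁻¹ * γ x'), γ1 x, mul_mem (inv_mem (γ1 x)) (γ1 x'), n, ?_⟩, fun t => ?_⟩
      · rw [ρ, n1, Finset.filter_true_of_mem fun j hj => by
          have := Finset.mem_range.1 hj
          simp only [toAdd_mul, toAdd_inv, Finsupp.add_apply, Finsupp.neg_apply, hγ, this, and_self, if_true]
          have := x3 j this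
          omega]
        rw [Finset.card_range, div_self (by positivity), one_pow]
      · have a1 := q_tri e8 t (F (sy.ac z (γ x'))) y (F (sy.ac z (γ x)))
        have a2 := x1 t
        have a3 := x2 t
        have a4 : (k + 1 : ℕ) * (64 / (η * (k + 1) ^ 2)) ≤ c / 32 := by
          have := (le_max_right _ _).trans_lt hk
          rw [div_div, div_lt_iff₀ (by positivity)] at this
          push_cast
          rw [← mul_div_assoc, div_le_div_iff₀ (by positivity) (by positivity)]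
          nlinarith [mul_pos η0 c0]
        rw [q_symm] at a2
        simp only [mul_inv_cancel_left]
        linarith)
  obtain ⟨_, ⟨z, z1, rfl⟩, z2, t, ht⟩ := low g' (sy.fanti (le_of_max_le_left u3) g2) g3 _
    (sy.opn g _ v1) (v2.image _) (by
      rintro _ ⟨z, hz, rfl⟩
      exact p3 (s3 (u4 z (v3 hz) g g1)))
  have := v4 z z1 (by simpa [← sy.mul, sy.one] using inv _ z2 g⁻¹) t
  simp only [sy.mul] at this
  linarith

variable {H : Type} [NormedAddCommGroup H] [InnerProductSpace ℂ H] [CompleteSpace H]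
  (b : HilbertBasis ℕ ℂ H)

/-- block vectors -/
noncomputable def bv (z : ℕ × ℕ → ℤ) (n : ℕ) : H :=
  ((√(kk n) : ℝ) : ℂ)⁻¹ • ∑ j ∈ .range (kk n), b (Encodable.encode (n, j, z (n, j)))

omit [CompleteSpace H] in
theorem bv_inner (u v : ℕ × ℕ → ℤ) (n m : ℕ) : inner ℂ (bv b u n) (bv b v m) = if n = m then
    (((Finset.range (kk n)).filter fun j => u (n, j) = v (n, j)).card / kk n : ℂ) else 0 := by
  simp only [bv, inner_smul_left, inner_smul_right, sum_inner, inner_sum,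
    orthonormal_iff_ite.1 b.orthonormal, Encodable.encode_inj, Prod.mk.injEq]
  split_ifs with h
  · subst h
    rw [Finset.sum_congr rfl fun j hj => show _ = (starRingEnd ℂ) ((√(kk n) : ℝ) : ℂ)⁻¹ *
      if u (n, j) = v (n, j) then 1 else 0 by
        rw [Finset.sum_eq_single j (by simp +contextual) (by simp [hj])]
        simp, ← Finset.mul_sum, Finset.sum_boole, ← mul_assoc, map_inv₀, Complex.conj_ofReal,
      ← mul_inv, ← Complex.ofReal_mul, Real.mul_self_sqrt (by positivity), div_eq_inv_mul]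
    simp
  · simp [h]

omit [CompleteSpace H] in
theorem bv_on (z : ℕ × ℕ → ℤ) : Orthonormal ℂ (bv b z) := orthonormal_iff_ite.2 fun n m => by
  rw [bv_inner]
  simp [kk, Nat.cast_add_one_ne_zero]

theorem sch (u v : ℕ × ℕ → ℤ) :
    Sch4 b (V b ⟨_, bv_on b u⟩) (V b ⟨_, bv_on b v⟩) ↔ Summable (ρ (u - v)) := by
  obtain ⟨r, hr⟩ : ∃ r : ℕ → ℝ, ∀ n,
    r n = ((Finset.range (kk n)).filter fun j => (u - v) (n, j) ≠ 0).card / kk n := ⟨_, fun _ => rfl⟩
  obtain ⟨c, hc⟩ : ∃ c, c = V b ⟨_, bv_on b u⟩ - V b ⟨_, bv_on b v⟩ := ⟨_, rfl⟩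
  have e : ∀ n, (star c * c) (b n) = ((2 * r n : ℝ) : ℂ) • b n := fun n => by
    apply b.repr.injective
    ext m
    have k0 : (kk n : ℂ) ≠ 0 := by simp [kk, Nat.cast_add_one_ne_zero]
    have := congrArg (Nat.cast : ℕ → ℂ) (Finset.card_filter_add_card_filter_not
      (s := .range (kk n)) fun j => u (n, j) = v (n, j))
    rw [b.repr_apply_apply, b.repr_apply_apply, inner_smul_right,
      orthonormal_iff_ite.1 b.orthonormal]
    show inner ℂ _ (ContinuousLinearMap.adjoint c (c _)) = _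
    rw [ContinuousLinearMap.adjoint_inner_right]
    simp only [hc, sub_apply, V_b, inner_sub_left, inner_sub_right, bv_inner]
    split_ifs with h
    · subst h
      simp only [hr, Pi.sub_apply, ne_eq, sub_eq_zero, eq_comm (a := v _), Finset.filter_true,
        Finset.card_range]
      push_cast at this ⊢
      rw [Finset.card_range] at this
      field_simp
      linear_combination -2 * this
    · simp
  rw [Sch4, ← hc, ← summable_mul_left_iff (f := ρ (u - v)) (show (4 : ℝ) ≠ 0 by norm_num)]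
  refine summable_congr fun n => ?_
  rw [sq, ContinuousLinearMap.mul_apply, e, map_smul, e, smul_smul, ρ, ← hr, ← Complex.ofReal_mul]
  show (inner ℂ (b n) _ : ℂ).re = _
  rw [inner_smul_right, orthonormal_iff_ite.1 b.orthonormal, if_pos rfl, mul_one, Complex.ofReal_re]
  ring

theorem q2 : ¬ Red (fun _ => True) (Sch4 b) L4 := by
  rintro ⟨f, f1, f2⟩
  obtain ⟨G, g1, g2, g3⟩ := sy.generic (F := fun z => f ⟨V b ⟨_, bv_on b z⟩, trivial⟩)
    (f1.comp (measurable_comap_iff.2 (by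
      rw [measurable_iff_comap_le, wot]
      simp only [MeasurableSpace.comap_iSup, MeasurableSpace.comap_comp, iSup_le_iff]
      refine fun ξ η => Measurable.comap_le (Continuous.measurable (((V_cont b ξ).comp
        ((continuous_pi fun n => (continuous_finset_sum _ fun j _ => ?_).const_smul _).subtype_mk
          _)).inner continuous_const))
      exact (continuous_of_discreteTopology (f := fun a : ℤ => b (Encodable.encode (n, j, a)))).comp
        (continuous_apply _))))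
  exact core2 g1 g2 g3 fun u v => (sch b u v).symm.trans (f2 ⟨_, trivial⟩ ⟨_, trivial⟩)

end Pool.Agent.H.MP_ec05f5_lc
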